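import Pool.Agent.MP_61ef33_al.R.St

/- Real parameters at and beyond the first band merging point. -/

namespace Pool.Agent.MP_61ef33_al.R

open Polynomial Set

theorem qf_Thresh (c y : ℝ) : qf (c : ℂ) (y : ℂ) = ((y ^ 2 + c : ℝ) : ℂ) := by
  simp [qf]

theorem iter_Thresh (c : ℝ) (n : ℕ) (y : ℝ) :
    (qf (c : ℂ))^[n] (y : ℂ) = (((fun x : ℝ => x ^ 2 + c)^[n] y : ℝ) : ℂ) := by
  induction n with
  | zero => rfl
  | succ n ih => rw [Function.iterate_succ_apply', Function.iterate_succ_apply', ih, qf_Thresh]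

theorem common_Thresh {c al : ℝ} (h1 : al ^ 2 + c = al) (h2 : al < 0) (h3 : c ^ 2 + c ≤ -al)
    {S : Type} (A : KA S) {pt : S → ℂ} {cls : ℂ → Bool} (hsg : pt A.sg = c)
    (hnx : ∀ s, pt (A.nx s) = qf c (pt s)) (hcl : ∀ s, A.cl s = cls (pt s))
    (hD : ∀ D : Set ℂ, IsPreconnected D → (0 : ℂ) ∉ D →
      (∀ z ∈ D, ∃ M, ∀ n, ‖(qf (c : ℂ))^[n] z‖ ≤ M) → ∀ z ∈ D, ∀ w ∈ D, cls z = cls w) :
    (∀ y ∈ Icc c al, cls (y : ℝ) = cls c) ∧ A.Star := by
  have hc : c ≤ al := by nlinarith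
  have s1 : ∀ y ∈ Icc c al, y ^ 2 + c ∈ Icc al (-al) := fun y hy =>
    ⟨by nlinarith [hy.1, hy.2], by nlinarith [hy.1, hy.2]⟩
  have s2 : ∀ y ∈ Icc al (-al), y ^ 2 + c ∈ Icc c al := fun y hy =>
    ⟨by nlinarith [sq_nonneg y], by nlinarith [hy.1, hy.2]⟩
  have s3 : ∀ y ∈ Icc c (-al), y ^ 2 + c ∈ Icc c (-al) := fun y hy => by
    rcases le_total y al with h | h
    · exact Icc_subset_Icc hc le_rfl (s1 y ⟨hy.1, h⟩)
    · exact Icc_subset_Icc le_rfl (by linarith) (s2 y ⟨h, hy.2⟩)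
  have s4 : ∀ n, ∀ y ∈ Icc c (-al), (fun x : ℝ => x ^ 2 + c)^[n] y ∈ Icc c (-al) := by
    intro n y hy
    induction n with
    | zero => exact hy
    | succ n ih => rw [Function.iterate_succ_apply']; exact s3 _ ih
  have key : ∀ y ∈ Icc c al, cls (y : ℝ) = cls c := by
    intro y hy
    refine hD ((fun x : ℝ => (x : ℂ)) '' Icc c al)
      (isPreconnected_Icc.image _ Complex.continuous_ofReal.continuousOn) ?_ ?_ _
      (mem_image_of_mem _ hy) _ (mem_image_of_mem _ ⟨le_rfl, hc⟩)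
    · rintro ⟨x, hx, h⟩
      have : x = 0 := Complex.ofReal_eq_zero.1 h
      linarith [hx.2]
    · rintro _ ⟨x, hx, rfl⟩
      refine ⟨-c - al, fun n => ?_⟩
      have := s4 n x ⟨hx.1, by linarith [hx.2]⟩
      rw [iter_Thresh, Complex.norm_real, Real.norm_eq_abs, abs_le]
      constructor <;> linarith [this.1, this.2]
  have ev : ∀ i, ∃ y ∈ Icc c al, pt (A.nx^[2 * i] A.sg) = (y : ℝ) := by
    intro i
    induction i with
    | zero => exact ⟨c, ⟨le_rfl, hc⟩, hsg⟩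
    | succ i ih =>
      obtain ⟨y, hy, e⟩ := ih
      refine ⟨_, s2 _ (s1 y hy), ?_⟩
      rw [show 2 * (i + 1) = 2 * i + 1 + 1 by ring, Function.iterate_succ_apply',
        Function.iterate_succ_apply', hnx, hnx, e, qf_Thresh, qf_Thresh]
  refine ⟨key, 2, le_rfl, fun j hj => ?_⟩
  obtain ⟨i, rfl⟩ : ∃ i, j = 2 * i := ⟨j / 2, by omega⟩
  obtain ⟨y, hy, e⟩ := ev i
  obtain ⟨y', hy', e'⟩ := ev (i + 1)
  rw [show 2 * i + 2 = 2 * (i + 1) by ring, hcl, hcl, e, e', key y hy, key y' hy']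

theorem one_Thresh (hL : LinkSt) (hI : Int3St) (c : ℝ)
    (h : c ^ 3 + 2 * c ^ 2 + 2 * c + 2 = 0) :
    (postcrit (X ^ 2 + C (c : ℂ))).Finite ∧ (0 : ℂ) ∉ postcrit (X ^ 2 + C (c : ℂ)) ∧
      Renormalizable c ∧
      ∀ t ∉ postcrit (X ^ 2 + C (c : ℂ)), IntermediateGrowth (IMG (X ^ 2 + C (c : ℂ)) t) := by
  have hc : c < -1 := by
    by_contra hc
    push Not at hc
    nlinarith [mul_nonneg (sq_nonneg c) (show 0 ≤ c + 1 by linarith), sq_nonneg (c + 1)]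
  have h1 : 0 < c ^ 2 + c := by nlinarith
  have h2 : (c ^ 2 + c) ^ 2 + c = -(c ^ 2 + c) := by linear_combination c * h
  have h3 : (-(c ^ 2 + c)) ^ 2 + c = -(c ^ 2 + c) := by linear_combination c * h
  have hx : ∀ k, (fun x : ℝ => x ^ 2 + c)^[k] c = c ∨ (fun x : ℝ => x ^ 2 + c)^[k] c = c ^ 2 + c ∨
      (fun x : ℝ => x ^ 2 + c)^[k] c = -(c ^ 2 + c) := by
    intro k
    induction k with
    | zero => exact Or.inl rfl
    | succ k ih =>
      rw [Function.iterate_succ_apply']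
      rcases ih with e | e | e
      · rw [e]; exact Or.inr (Or.inl rfl)
      · rw [e]; exact Or.inr (Or.inr h2)
      · rw [e]; exact Or.inr (Or.inr h3)
  have hf : (postcrit (X ^ 2 + C (c : ℂ))).Finite := by
    rw [postcrit_quad]
    refine (toFinite ({(c : ℂ), ((c ^ 2 + c : ℝ) : ℂ), ((-(c ^ 2 + c) : ℝ) : ℂ)} : Set ℂ)).subset ?_
    rintro _ ⟨k, rfl⟩
    simp only [iter_Thresh, mem_insert_iff, mem_singleton_iff, Complex.ofReal_inj]
    exact hx k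
  have h0 : (0 : ℂ) ∉ postcrit (X ^ 2 + C (c : ℂ)) := by
    rw [postcrit_quad]
    rintro ⟨k, hk⟩
    simp only [iter_Thresh, Complex.ofReal_eq_zero] at hk
    rcases hx k with e | e | e <;> linarith
  obtain ⟨S, hS, A, pt, cls, hinj, -, hsg, hnx, hcl, hD, hR, hE⟩ := hL c hf h0
  obtain ⟨k1, k2⟩ := common_Thresh h3 (by linarith) (by linarith) A hsg hnx hcl hD
  have p1 : pt (A.nx A.sg) = ((c ^ 2 + c : ℝ) : ℂ) := by rw [hnx, hsg, qf_Thresh]
  have p2 : pt (A.nx (A.nx A.sg)) = ((-(c ^ 2 + c) : ℝ) : ℂ) := by rw [hnx, p1, qf_Thresh, h2]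
  have p3 : pt (A.nx (A.nx (A.nx A.sg))) = ((-(c ^ 2 + c) : ℝ) : ℂ) := by
    rw [hnx, p2, qf_Thresh, h3]
  have hG := hI S A (hinj (p3.trans p2.symm)) (fun e => by
    have := congrArg pt e
    rw [p1, p2, Complex.ofReal_inj] at this
    linarith) (by
    rw [hcl, hcl, hsg, p2, k1 _ ⟨by nlinarith [sq_nonneg (c ^ 2 + c)], le_rfl⟩])
  refine ⟨hf, h0, hR k2, fun t ht => ?_⟩
  obtain ⟨E⟩ := hE t ht
  exact IntermediateGrowth.of_equiv E.symm hG

theorem neg_Thresh {c : ℝ} (hf : (postcrit (X ^ 2 + C (c : ℂ))).Finite)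
    (h0 : (0 : ℂ) ∉ postcrit (X ^ 2 + C (c : ℂ))) : c < 0 := by
  rw [postcrit_quad] at hf h0
  by_contra hc
  push Not at hc
  have hc' : 0 < c := hc.lt_of_ne fun e => h0 ⟨0, by simp [← e]⟩
  have hx : ∀ k, 0 < (fun x : ℝ => x ^ 2 + c)^[k] c ∧
      (fun x : ℝ => x ^ 2 + c)^[k] c < (fun x : ℝ => x ^ 2 + c)^[k + 1] c := by
    intro k
    induction k with
    | zero =>
      refine ⟨hc', ?_⟩
      show c < c ^ 2 + c
      nlinarith
    | succ k ih =>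
      refine ⟨ih.1.trans ih.2, ?_⟩
      obtain ⟨a, b⟩ := ih
      rw [Function.iterate_succ_apply' _ (k + 1)]
      nth_rewrite 1 [Function.iterate_succ_apply']
      show _ ^ 2 + c < _ ^ 2 + c
      nlinarith
  have hm : StrictMono fun k => (fun x : ℝ => x ^ 2 + c)^[k] c :=
    strictMono_nat_of_lt_succ fun k => (hx k).2
  refine infinite_range_of_injective (fun k l e => hm.injective ?_) hf
  simpa only [iter_Thresh, Complex.ofReal_inj] using e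

theorem two_Thresh (hL : LinkSt) (hF : FreeSt) (hN : NotIntSt) (c : ℝ)
    (h : 0 < c ^ 3 + 2 * c ^ 2 + 2 * c + 2) (hf : (postcrit (X ^ 2 + C (c : ℂ))).Finite)
    (h0 : (0 : ℂ) ∉ postcrit (X ^ 2 + C (c : ℂ))) :
    Renormalizable c ∧ ∀ t ∉ postcrit (X ^ 2 + C (c : ℂ)),
      FreePair (IMG (X ^ 2 + C (c : ℂ)) t) ∧ ¬ IntermediateGrowth (IMG (X ^ 2 + C (c : ℂ)) t) := by
  have hc := neg_Thresh hf h0
  obtain ⟨al, h1, h2⟩ : ∃ al : ℝ, al ^ 2 + c = al ∧ al < 0 := by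
    have a1 : Real.sqrt (1 - 4 * c) ^ 2 = 1 - 4 * c := Real.sq_sqrt (by linarith)
    have a2 : 1 < Real.sqrt (1 - 4 * c) := Real.lt_sqrt_of_sq_lt (by linarith)
    exact ⟨(1 - Real.sqrt (1 - 4 * c)) / 2, by linear_combination a1 / 4, by linarith⟩
  have h3 : c ^ 2 + c < -al := by
    obtain rfl : c = al - al ^ 2 := by linarith
    have b1 : 0 < (1 - al) ^ 3 - 2 * (1 - al) ^ 2 + 2 := by
      nlinarith [mul_nonneg (show 0 ≤ 1 - al by linarith) (sq_nonneg (1 - al - 4 / 3)),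
        sq_nonneg (1 - al - 4 / 3)]
    have b2 : 0 < (al ^ 3 - 2 * al ^ 2 + 2) * ((1 - al) ^ 3 - 2 * (1 - al) ^ 2 + 2) :=
      h.trans_eq (by ring)
    have b3 := (mul_pos_iff_of_pos_right b1).1 b2
    nlinarith [mul_neg_of_neg_of_pos h2 b3]
  have h4 : c < al := by nlinarith
  obtain ⟨S, hS, A, pt, cls, -, -, hsg, hnx, hcl, hD, hR, hE⟩ := hL c hf h0
  obtain ⟨k1, k2⟩ := common_Thresh h1 h2 h3.le A hsg hnx hcl hD
  have s1 : ∀ y, c ≤ y ∧ y < al → al < y ^ 2 + c ∧ y ^ 2 + c ≤ c ^ 2 + c := fun y hy =>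
    ⟨by nlinarith [hy.1, hy.2], by nlinarith [hy.1, hy.2]⟩
  have s2 : ∀ y, al < y ∧ y ≤ c ^ 2 + c → c ≤ y ^ 2 + c ∧ y ^ 2 + c < al := fun y hy =>
    ⟨by nlinarith [sq_nonneg y], by nlinarith [hy.1, hy.2]⟩
  have hs : ∀ s, ∃ y : ℝ, pt s = y ∧ ((c ≤ y ∧ y < al) ∨ (al < y ∧ y ≤ c ^ 2 + c)) := by
    intro s
    obtain ⟨k, rfl⟩ := A.hc s
    induction k with
    | zero => exact ⟨c, hsg, Or.inl ⟨le_rfl, h4⟩⟩
    | succ k ih =>
      obtain ⟨y, e, hy⟩ := ih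
      refine ⟨y ^ 2 + c, by rw [Function.iterate_succ_apply', hnx, e, qf_Thresh], ?_⟩
      exact hy.elim (fun a => Or.inr (s1 y a)) fun a => Or.inl (s2 y a)
  have hG : FreePair A.G := by
    refine hF S A 2 1 (fun s => if (pt s).re < al then 0 else 1) (fun _ => cls c) (by decide)
      ?_ (fun s => ?_) (fun s hk => ?_) fun _ => rfl
    · rw [hsg, Complex.ofReal_re, if_pos h4]
    · obtain ⟨y, e, hy⟩ := hs s
      rw [hnx, e, qf_Thresh, Complex.ofReal_re, Complex.ofReal_re]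
      rcases hy with a | a
      · rw [if_neg (s1 y a).1.not_gt, if_pos a.2, zero_add]
      · rw [if_pos (s2 y a).2, if_neg a.1.not_gt]
        decide
    · obtain ⟨y, e, hy⟩ := hs s
      rw [e, Complex.ofReal_re] at hk
      rcases hy with a | a
      · rw [hcl, e, k1 y ⟨a.1, a.2.le⟩]
      · rw [if_neg a.1.not_gt] at hk
        exact absurd (by decide) hk
  refine ⟨hR k2, fun t ht => ?_⟩
  obtain ⟨E⟩ := hE t ht
  have := hN.2 _ _ E.symm hG
  exact ⟨this, hN.1 _ this⟩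

theorem thresh_st (hL : LinkSt) (hF : FreeSt) (hN : NotIntSt) (hI : Int3St) : ThreshSt :=
  ⟨one_Thresh hL hI, two_Thresh hL hF hN⟩

end Pool.Agent.MP_61ef33_al.R
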