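import Pool.Agent.MP_61ef33_al.R.St

/- A free semigroup by ping-pong on the binary tree. -/

namespace Pool.Agent.MP_61ef33_al.R

section

variable {p : ℕ}

/-- The reference word. -/
def xi_Free (u : ZMod p → Bool) : ZMod p → ℕ → List Bool
  | _, 0 => []
  | k, n + 1 => u (-k - 1) :: xi_Free u (k + 1) n

/-- All deviations from the reference word are at places of class `i`. -/
def Cl_Free (u : ZMod p → Bool) (i : ZMod p) : ZMod p → List Bool → Prop
  | _, [] => True
  | k, x :: w => (x = u (-k - 1) ∨ k = i) ∧ Cl_Free u i (k + 1) w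

open Classical in
/-- Reset everything up to the last deviation that is not of class `i`. -/
noncomputable def pr_Free (u : ZMod p → Bool) (i : ZMod p) : ZMod p → List Bool → List Bool
  | _, [] => []
  | k, x :: w => (if k = i ∧ Cl_Free u i (k + 1) w then x else u (-k - 1)) :: pr_Free u i (k + 1) w

variable {u : ZMod p → Bool}

theorem clxi_Free (i : ZMod p) (n : ℕ) : ∀ k, Cl_Free u i k (xi_Free u k n) := by
  induction n with
  | zero => exact fun _ => trivial
  | succ n ih => exact fun k => ⟨Or.inl rfl, ih _⟩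

theorem lenxi_Free (n : ℕ) : ∀ k, (xi_Free u k n).length = n := by
  induction n with
  | zero => exact fun _ => rfl
  | succ n ih => exact fun k => congrArg (· + 1) (ih _)

theorem prcl_Free {i : ZMod p} (w : List Bool) : ∀ k, Cl_Free u i k w → pr_Free u i k w = w := by
  induction w with
  | nil => exact fun _ _ => rfl
  | cons x w ih =>
    intro k h
    rw [pr_Free, ih _ h.2]
    split_ifs with h1
    · rfl
    · rw [h.1.resolve_right fun h2 => h1 ⟨h2, h.2⟩]

theorem step_Free {i j k : ZMod p} (hij : i ≠ j) (x : Bool) {w : List Bool}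
    (h : pr_Free u i (k + 1) w = xi_Free u (k + 1) w.length) :
    pr_Free u i k (x :: w) = xi_Free u k (w.length + 1) ∨
      pr_Free u j k (x :: w) = xi_Free u k (w.length + 1) := by
  by_cases h1 : k = i ∧ Cl_Free u i (k + 1) w
  · right
    rw [prcl_Free w _ h1.2] at h
    rw [pr_Free, xi_Free, if_neg fun h2 => hij (h1.1.symm.trans h2.1),
      prcl_Free w _ (h ▸ clxi_Free j _ _), ← h]
  · left
    rw [pr_Free, xi_Free, if_neg h1, h]

theorem disj_Free {i j : ZMod p} (hij : i ≠ j) (w : List Bool) : ∀ k,
    pr_Free u i k w = xi_Free u k w.length ∨ pr_Free u j k w = xi_Free u k w.length := by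
  induction w with
  | nil => exact fun _ => Or.inl rfl
  | cons x w ih =>
    intro k
    rcases ih (k + 1) with h | h
    · exact step_Free hij x h
    · exact (step_Free hij.symm x h).symm

variable {S : Type} {A : KA S} {κ : S → ZMod p}

/-- The standing hypotheses for the cluster `j`. -/
structure Hy_Free (A : KA S) (κ : S → ZMod p) (u : ZMod p → Bool) (j : ZMod p) : Prop where
  sg : κ A.sg = 0
  nx : ∀ s, κ (A.nx s) = κ s + 1
  cl : ∀ s, κ s ≠ -1 → A.cl s = u (κ s)
  per : ∀ i, u (i + j) = u i

theorem cls_Free {j k : ZMod p} (H : Hy_Free A κ u j) {t : S} (ht : κ t = j - (k + 1))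
    (hk : k ≠ j) : A.cl t = u (-k - 1) := by
  rw [H.cl t fun h => hk (by linear_combination ht - h), ht, ← H.per (-k - 1)]
  congr 1
  ring

theorem prev_Free {j k : ZMod p} (H : Hy_Free A κ u j) {s t : S} {x : Bool} (hs : κ s = j - k)
    (e : A.prev x s = some t) : κ t = j - (k + 1) ∧ (k ≠ j → x = u (-k - 1)) := by
  obtain ⟨h1, h2⟩ := A.prev_eq_some.1 e
  have h3 := H.nx t
  rw [h1, hs] at h3
  have h4 : κ t = j - (k + 1) := by linear_combination -h3
  exact ⟨h4, fun hk => h2.symm.trans (cls_Free H h4 hk)⟩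

theorem isg_Free {j k : ZMod p} (H : Hy_Free A κ u j) {s : S} (hs : κ s = j - k) (hk : k ≠ j) :
    A.isg s = false := by
  refine A.isg_ne fun h => hk ?_
  rw [h, H.sg] at hs
  linear_combination hs

theorem act_Free (A : KA S) (x : Bool) (w : List Bool) (s : S) :
    A.act (x :: w) s = xor x (A.isg s) :: w ∨
      ∃ t, A.prev x s = some t ∧ A.act (x :: w) s = xor x (A.isg s) :: A.act w t := by
  cases e : A.prev x s with
  | none => left; simp only [KA.act, e]
  | some t => right; exact ⟨t, rfl, by simp only [KA.act, e]⟩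

theorem len_Free (A : KA S) (w : List Bool) : ∀ s, (A.act w s).length = w.length := by
  induction w with
  | nil => exact fun _ => rfl
  | cons x w ih =>
    intro s
    rcases act_Free A x w s with h | ⟨t, -, h⟩
    · rw [h]; rfl
    · rw [h, List.length_cons, ih, List.length_cons]

theorem oth_Free {i j : ZMod p} (H : Hy_Free A κ u j) (hij : i ≠ j) (w : List Bool) :
    ∀ k s, κ s = j - k → pr_Free u i k (A.act w s) = pr_Free u i k w := by
  induction w with
  | nil => exact fun _ _ _ => rfl
  | cons x w ih =>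
    intro k s hs
    by_cases hk : k = i
    · have hj : k ≠ j := hk ▸ hij
      rcases act_Free A x w s with h | ⟨t, e, h⟩
      · rw [h, isg_Free H hs hj, Bool.xor_false]
      · obtain ⟨h1, h2⟩ := prev_Free H hs e
        rw [h, isg_Free H hs hj, Bool.xor_false, pr_Free, pr_Free, ih _ t h1, h2 hj, ite_self,
          ite_self]
    · rcases act_Free A x w s with h | ⟨t, e, h⟩
      · rw [h, pr_Free, pr_Free, if_neg fun h => hk h.1, if_neg fun h => hk h.1]
      · rw [h, pr_Free, pr_Free, if_neg fun h => hk h.1, if_neg fun h => hk h.1,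
          ih _ t (prev_Free H hs e).1]

theorem cliff_Free {j : ZMod p} (H : Hy_Free A κ u j) (w : List Bool) :
    ∀ k s, κ s = j - k → (Cl_Free u j k (A.act w s) ↔ Cl_Free u j k w) := by
  induction w with
  | nil => exact fun _ _ _ => Iff.rfl
  | cons x w ih =>
    intro k s hs
    have hh : (xor x (A.isg s) = u (-k - 1) ∨ k = j) ↔ (x = u (-k - 1) ∨ k = j) := by
      by_cases hk : k = j
      · exact ⟨fun _ => Or.inr hk, fun _ => Or.inr hk⟩
      · rw [isg_Free H hs hk, Bool.xor_false]
    rcases act_Free A x w s with h | ⟨t, e, h⟩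
    · rw [h]; exact and_congr hh Iff.rfl
    · rw [h]; exact and_congr hh (ih _ t (prev_Free H hs e).1)

theorem own_Free {j : ZMod p} (H : Hy_Free A κ u j) (w : List Bool) :
    ∀ k s, κ s = j - k → ¬ Cl_Free u j k w → pr_Free u j k (A.act w s) = pr_Free u j k w := by
  induction w with
  | nil => exact fun _ _ _ _ => rfl
  | cons x w ih =>
    intro k s hs hc
    by_cases hw : Cl_Free u j (k + 1) w
    · have h1 : ¬ (x = u (-k - 1) ∨ k = j) := fun h => hc ⟨h, hw⟩
      have hk : k ≠ j := fun h => h1 (Or.inr h)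
      rcases act_Free A x w s with h | ⟨t, e, h⟩
      · rw [h, isg_Free H hs hk, Bool.xor_false]
      · exact (h1 (Or.inl ((prev_Free H hs e).2 hk))).elim
    · rcases act_Free A x w s with h | ⟨t, e, h⟩
      · rw [h, pr_Free, pr_Free, if_neg fun h => hw h.2, if_neg fun h => hw h.2]
      · have h1 := (prev_Free H hs e).1
        rw [h, pr_Free, pr_Free, if_neg fun h => hw ((cliff_Free H w _ t h1).1 h.2),
          if_neg fun h => hw h.2, ih _ t h1 hw]

theorem word_Free {j : ZMod p} (H : Hy_Free A κ u j) (W : List S) (hW : ∀ s ∈ W, κ s = j) :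
    ∀ w, (A.ev W w).length = w.length ∧
      (∀ i, i ≠ j → pr_Free u i 0 (A.ev W w) = pr_Free u i 0 w) ∧
      (Cl_Free u j 0 (A.ev W w) ↔ Cl_Free u j 0 w) ∧
      (¬ Cl_Free u j 0 w → pr_Free u j 0 (A.ev W w) = pr_Free u j 0 w) := by
  induction W with
  | nil => exact fun w => ⟨rfl, fun _ _ => rfl, Iff.rfl, fun _ => rfl⟩
  | cons s W ih =>
    intro w
    have hs : κ s = j - 0 := by rw [sub_zero]; exact hW s List.mem_cons_self
    obtain ⟨h1, h2, h3, h4⟩ := ih (fun t ht => hW t (List.mem_cons_of_mem _ ht)) (A.act w s)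
    have h5 := cliff_Free H w 0 s hs
    exact ⟨h1.trans (len_Free A w s), fun i hi => (h2 i hi).trans (oth_Free H hi w 0 s hs),
      h3.trans h5, fun h => (h4 fun h' => h (h5.1 h')).trans (own_Free H w 0 s hs h)⟩

variable [DecidableEq S]

theorem cnt_Free (A : KA S) (t : S) (W : List S) : ∀ x,
    (A.sec W x).count t + (A.sec W (!x)).count t = W.count (A.nx t) := by
  induction W with
  | nil => exact fun _ => rfl
  | cons s W ih =>
    intro x
    have h1 : ∀ y, (A.prev y s).toList.count t = if A.nx t = s ∧ A.cl t = y then 1 else 0 := by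
      intro y
      split_ifs with h
      · rw [A.prev_eq_some.2 h]; simp
      · refine List.count_eq_zero_of_not_mem fun h' => h (A.prev_eq_some.1 ?_)
        simpa using h'
    have h2 := ih (xor x (A.isg s))
    rw [← Bool.not_xor] at h2
    rw [A.sec_cons, A.sec_cons, List.count_append, List.count_append, h1, h1, List.count_cons]
    by_cases h : A.nx t = s
    · subst h
      cases x <;> cases A.cl t <;> simp at h2 ⊢ <;> omega
    · have h' : ¬ s = A.nx t := fun e => h e.symm
      simp only [h, h', false_and, if_false, beq_iff_eq]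
      omega

theorem par_Free (A : KA S) (W : List S) : A.par W = true ↔ Odd (W.count A.sg) := by
  induction W with
  | nil => simp
  | cons s W ih =>
    by_cases h : s = A.sg
    · subst h
      rw [A.par_cons, A.isg_sg, List.count_cons_self, Nat.odd_add_one, ← ih]
      simp
    · rw [A.par_cons, A.isg_ne h, List.count_cons_of_ne h, Bool.false_xor, ih]

/-- Every letter of the cluster `c` occurs an odd number of times, and no other letter occurs. -/
def Od_Free (κ : S → ZMod p) (c : ZMod p) (W : List S) : Prop :=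
  (∀ s ∈ W, κ s = c) ∧ ∀ s, κ s = c → Odd (W.count s)

omit [DecidableEq S] in
theorem pow_Free (A : KA S) {W : List S} (h : A.par W = false) (x : Bool) (w : List Bool) (n : ℕ) :
    (A.ev W ^ n) (x :: w) = x :: (A.ev (A.sec W x) ^ n) w := by
  induction n with
  | zero => rfl
  | succ n ih =>
    rw [pow_succ', pow_succ', Equiv.Perm.mul_apply, Equiv.Perm.mul_apply, ih, A.ev_apply_cons, h,
      Bool.xor_false]

theorem shift_Free {Q : ℕ → Prop} (h : ∀ᶠ N in Filter.atTop, Q (N + 1)) :
    ∀ᶠ N in Filter.atTop, Q N := by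
  obtain ⟨a, ha⟩ := Filter.eventually_atTop.1 h
  refine Filter.eventually_atTop.2 ⟨a + 1, fun N hN => ?_⟩
  obtain ⟨M, rfl⟩ : ∃ M, N = M + 1 := ⟨N - 1, by omega⟩
  exact ha M (by omega)

theorem ord_Free [NeZero p] {j : ZMod p} (H : Hy_Free A κ u j) (n : ℕ) : 0 < n → ∀ k W,
    Od_Free κ (j - k) W → ∀ᶠ N in Filter.atTop, (A.ev W ^ n) (xi_Free u k N) ≠ xi_Free u k N := by
  induction n using Nat.strong_induction_on with
  | _ n ih =>
  intro hn
  have hsec : ∀ k W x, (∀ s ∈ W, κ s = j - k) → ∀ t ∈ A.sec W x, κ t = j - (k + 1) := by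
    intro k W x hW t ht
    have h1 := hW _ (A.mem_sec ht)
    rw [H.nx] at h1
    linear_combination h1
  have hnx : ∀ k t, κ t = j - (k + 1) → κ (A.nx t) = j - k := by
    intro k t ht
    rw [H.nx, ht]
    ring
  have base : ∀ W, Od_Free κ (j - j) W →
      ∀ᶠ N in Filter.atTop, (A.ev W ^ n) (xi_Free u j N) ≠ xi_Free u j N := by
    intro W hW
    have hp : A.par W = true := (par_Free A W).2 (hW.2 _ (H.sg.trans (sub_self j).symm))
    have hp2 : A.par (W ++ W) = false := by rw [A.par_append, hp]; rfl
    have h2 : ∀ m, A.ev W ^ (2 * m) = A.ev (W ++ W) ^ m := fun m => by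
      rw [pow_mul, pow_two, A.ev_append]
    refine shift_Free ?_
    obtain ⟨m, rfl | rfl⟩ := Nat.even_or_odd' n
    · have h3 : Od_Free κ (j - (j + 1)) (A.sec (W ++ W) (u (-j - 1))) := by
        refine ⟨hsec j _ _ fun s hs => hW.1 s ((List.mem_append.1 hs).elim id id), fun t ht => ?_⟩
        rw [A.sec_append, hp, Bool.xor_true, List.count_append, cnt_Free]
        exact hW.2 _ (hnx j t ht)
      refine (ih m (by omega) (by omega) _ _ h3).mono fun N hN h => hN ?_
      rw [h2, xi_Free, pow_Free A hp2] at h
      exact (List.cons.inj h).2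
    · refine Filter.Eventually.of_forall fun N h => ?_
      rw [pow_succ', Equiv.Perm.mul_apply, h2, xi_Free, pow_Free A hp2, A.ev_apply_cons, hp] at h
      have := (List.cons.inj h).1
      simp at this
  have main : ∀ (d : ℕ) (k : ZMod p), k + d = j → ∀ W, Od_Free κ (j - k) W →
      ∀ᶠ N in Filter.atTop, (A.ev W ^ n) (xi_Free u k N) ≠ xi_Free u k N := by
    intro d
    induction d with
    | zero =>
      intro k hk
      rw [Nat.cast_zero, add_zero] at hk
      rw [hk]
      exact base
    | succ d ihd =>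
      intro k hk W hW
      by_cases hj : k = j
      · rw [hj] at hW ⊢
        exact base W hW
      have hsg : A.sg ∉ W := fun h => by
        have := isg_Free H (hW.1 _ h) hj
        simp at this
      have h3 : Od_Free κ (j - (k + 1)) (A.sec W (u (-k - 1))) := by
        refine ⟨hsec k _ _ hW.1, fun t ht => ?_⟩
        have h4 := cnt_Free A t W (u (-k - 1))
        have h5 : t ∉ A.sec W (!u (-k - 1)) := fun h => by
          have := (A.cl_of_mem_sec hsg h).symm.trans (cls_Free H ht hj)
          simp at this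
        rw [List.count_eq_zero_of_not_mem h5, add_zero] at h4
        rw [h4]
        exact hW.2 _ (hnx k t ht)
      refine shift_Free ((ihd (k + 1) (by rw [← hk]; push_cast; ring) _ h3).mono fun N hN h => hN ?_)
      rw [xi_Free, pow_Free A (A.par_of_not_mem hsg)] at h
      exact (List.cons.inj h).2
  intro k
  exact main (j - k).val k (by rw [ZMod.natCast_zmod_val]; ring)

theorem ping_Free [NeZero p] {c : Bool → ZMod p} (hc : ∀ a b, c a = c b → a = b)
    (H : ∀ b, Hy_Free A κ u (c b)) {W : Bool → List S} (hW : ∀ b, Od_Free κ (c b) (W b))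
    (b : Bool) (l : List Bool) : ∀ᶠ N in Filter.atTop,
      (((l ++ [b]).map fun a => A.ev (W a)).prod (xi_Free u 0 N)).length = N ∧
      pr_Free u (c b) 0 (((l ++ [b]).map fun a => A.ev (W a)).prod (xi_Free u 0 N)) ≠
        xi_Free u 0 N := by
  have hw := fun a => word_Free (H a) (W a) (hW a).1
  have inv : ∀ N, (((l ++ [b]).map fun a => A.ev (W a)).prod (xi_Free u 0 N)).length = N ∧
      ∃ n ∈ Finset.range (l.length + 1),
      pr_Free u (c b) 0 (((l ++ [b]).map fun a => A.ev (W a)).prod (xi_Free u 0 N)) =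
        (A.ev (W b) ^ (n + 1)) (xi_Free u 0 N) := by
    intro N
    induction l with
    | nil =>
      simp only [List.nil_append, List.map_cons, List.map_nil, List.prod_cons, List.prod_nil,
        mul_one]
      refine ⟨(hw b _).1.trans (lenxi_Free N 0), 0, by simp, ?_⟩
      rw [zero_add, pow_one]
      exact prcl_Free _ _ ((hw b _).2.2.1.2 (clxi_Free _ _ _))
    | cons a l ih =>
      obtain ⟨h1, n, hn, h2⟩ := ih
      have hn' := Finset.mem_range.1 hn
      rw [List.cons_append, List.map_cons, List.prod_cons, Equiv.Perm.mul_apply, List.length_cons]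
      generalize ((l ++ [b]).map fun a => A.ev (W a)).prod (xi_Free u 0 N) = w at h1 h2 ⊢
      refine ⟨(hw a w).1.trans h1, ?_⟩
      by_cases hab : b = a
      · subst hab
        by_cases h3 : Cl_Free u (c b) 0 w
        · refine ⟨n + 1, Finset.mem_range.2 (by omega), ?_⟩
          rw [prcl_Free _ _ h3] at h2
          rw [prcl_Free _ _ ((hw b w).2.2.1.2 h3), pow_succ' _ (n + 1), Equiv.Perm.mul_apply, ← h2]
        · exact ⟨n, Finset.mem_range.2 (by omega), ((hw b w).2.2.2 h3).trans h2⟩
      · exact ⟨n, Finset.mem_range.2 (by omega),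
          ((hw a w).2.1 _ fun h => hab (hc _ _ h)).trans h2⟩
  have h := (Filter.eventually_all_finset (Finset.range (l.length + 1))).2 fun n _ =>
    ord_Free (H b) (n + 1) n.succ_pos 0 (W b) (by rw [sub_zero]; exact hW b)
  refine h.mono fun N hN => ?_
  obtain ⟨h1, n, hn, h2⟩ := inv N
  exact ⟨h1, fun h3 => hN n hn (h2.symm.trans h3)⟩

theorem inj_Free [NeZero p] {c : Bool → ZMod p} (hc : ∀ a b, c a = c b → a = b)
    (H : ∀ b, Hy_Free A κ u (c b)) {W : Bool → List S} (hW : ∀ b, Od_Free κ (c b) (W b))
    (l : List Bool) : ∀ l' : List Bool,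
      (l.map fun a => A.ev (W a)).prod = (l'.map fun a => A.ev (W a)).prod → l = l' := by
  have one : ∀ (b : Bool) (l : List Bool), ((l ++ [b]).map fun a => A.ev (W a)).prod ≠ 1 := by
    intro b l h
    obtain ⟨N, -, hN⟩ := (ping_Free hc H hW b l).exists
    rw [h] at hN
    exact hN (prcl_Free _ _ (clxi_Free _ _ _))
  induction l using List.reverseRecOn with
  | nil =>
    intro l' h
    rcases List.eq_nil_or_concat' l' with rfl | ⟨l', b, rfl⟩
    · rfl
    · exact (one b l' h.symm).elim
  | append_singleton l b ih =>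
    intro l' h
    rcases List.eq_nil_or_concat' l' with rfl | ⟨l', b', rfl⟩
    · exact (one b l h).elim
    by_cases hb : b = b'
    · subst hb
      rw [List.map_append, List.map_append, List.prod_append, List.prod_append] at h
      rw [ih l' (mul_right_cancel h)]
    · obtain ⟨N, ⟨h1, h2⟩, -, h3⟩ := ((ping_Free hc H hW b l).and (ping_Free hc H hW b' l')).exists
      rw [← h] at h3
      have h4 := disj_Free (u := u) (fun e => hb (hc _ _ e))
        (((l ++ [b]).map fun a => A.ev (W a)).prod (xi_Free u 0 N)) 0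
      rw [h1] at h4
      exact (h4.elim h2 h3).elim

end

theorem free_st : FreeSt := by
  intro S _ A p _ g κ u hg h0 h1 h2 h3
  classical
  have hW : ∀ c : ZMod p, Od_Free κ c (Finset.univ.filter fun s => κ s = c).toList := by
    intro c
    refine ⟨fun s hs => (Finset.mem_filter.1 (Finset.mem_toList.1 hs)).2, fun s hs => ?_⟩
    rw [List.count_eq_one_of_mem (Finset.nodup_toList _)
      (Finset.mem_toList.2 (Finset.mem_filter.2 ⟨Finset.mem_univ s, hs⟩))]
    exact odd_one
  obtain ⟨c, hc0, hc1⟩ : ∃ c : Bool → ZMod p, c true = 0 ∧ c false = g :=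
    ⟨fun b => if b then 0 else g, rfl, rfl⟩
  have hc : ∀ a b, c a = c b → a = b := by
    intro a b h
    cases a <;> cases b
    · rfl
    · exact (hg (hc1.symm.trans (h.trans hc0))).elim
    · exact (hg (hc1.symm.trans (h.symm.trans hc0))).elim
    · rfl
  have H : ∀ b, Hy_Free A κ u (c b) := by
    intro b
    refine ⟨h0, h1, h2, fun i => ?_⟩
    cases b
    · rw [hc1]; exact h3 i
    · rw [hc0, add_zero]
  obtain ⟨W, hW⟩ : ∃ W : Bool → List S, ∀ b, Od_Free κ (c b) (W b) := ⟨_, fun b => hW (c b)⟩
  have hv : ∀ l : List Bool,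
      ((l.map fun b : Bool => if b then A.el (W true) else A.el (W false)).prod).1 =
      (l.map fun a => A.ev (W a)).prod := by
    intro l
    induction l with
    | nil => rfl
    | cons a l ih =>
      rw [List.map_cons, List.map_cons, List.prod_cons, List.prod_cons, ← ih]
      cases a <;> rfl
  refine ⟨A.el (W true), A.el (W false), fun l l' h => inj_Free hc H hW l l' ?_⟩
  rw [← hv, ← hv]
  exact congrArg Subtype.val h

end Pool.Agent.MP_61ef33_al.R
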