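import Pool.Agent.MP_61ef33_al.R.St

/- Intermediate growth for the three-state automaton with a fixed last state. -/

namespace Pool.Agent.MP_61ef33_al.R

namespace I3

open KA

/-- A finite system of cuts closed under pull-back. -/
structure CZ {S : Type} (A : KA S) (I : Type) where
  F : I → S → Bool
  pa : I ≃ I
  x : I → Bool
  hF : ∀ i, F i = A.step (F (pa i)) (x i)

namespace CZ

variable {S I : Type} {A : KA S} (C : CZ A I)

noncomputable def fl (i : I) : Bool := C.F (C.pa i) (A.nx A.sg) && (A.cl A.sg == C.x i)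

noncomputable def lp (a : I → Bool) (y : Bool) : I → Bool :=
  fun i => xor (a (C.pa i) && (y == C.x i)) (C.fl i)

noncomputable def child (t : WT S I) (y : Bool) : WT S I :=
  ⟨C.lp t.a y, A.sec t.W y, C.lp t.b (xor y (A.par t.W))⟩

noncomputable def cr (i : I) (t : WT S I) : ℕ := crs (t.a i) (t.W.map (C.F i)) (t.b i)

noncomputable def N (i : I) (e : Bool) (t : WT S I) : ℕ := A.Nc (C.F i) e (t.a i) t.W (t.b i)

def pos (s : S) : I → Bool := fun i => C.F i s

theorem F_sg (i : I) : C.F i A.sg = false := by rw [C.hF, step_sg]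

theorem N_add (i : I) (e : Bool) (t : WT S I) : C.N i e t + C.N i (!e) t = C.cr i t :=
  A.Nc_add (C.F_sg i) _ _ _ _

theorem cr_child_le (j : I) (t : WT S I) (y : Bool) :
    C.cr j (C.child t y) ≤ C.N (C.pa j) (xor (C.x j) y) t := by
  have h := crs_sublist (A.sec_sublist (C.F (C.pa j)) (C.x j) t.W y)
    (t.a (C.pa j) && (y == C.x j)) (t.b (C.pa j) && (xor y (A.par t.W) == C.x j))
  rw [← crs_xor _ _ (C.fl j), List.map_map] at h
  have e : C.cr j (C.child t y) = crs (xor (t.a (C.pa j) && (y == C.x j)) (C.fl j))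
      ((A.sec t.W y).map ((fun c => xor c (C.fl j)) ∘
        fun s => C.F (C.pa j) (A.nx s) && (A.cl s == C.x j)))
      (xor (t.b (C.pa j) && (xor y (A.par t.W) == C.x j)) (C.fl j)) := by
    unfold cr child
    conv_lhs => rw [C.hF j]
    rfl
  rw [e]
  refine h.trans (le_of_eq ?_)
  unfold N Nc
  congr 2
  · cases y <;> cases C.x j <;> rfl
  · cases y <;> cases C.x j <;> cases A.par t.W <;> rfl

theorem child_comp (t u : WT S I) (y : Bool) :
    C.child (t.comp u) y = (C.child t y).comp (C.child u (xor y (A.par t.W))) := by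
  simp [child, WT.comp, sec_append, par_append]

theorem cr_comp_le (i : I) {t u : WT S I} (h : t.b = u.a) :
    C.cr i (t.comp u) ≤ C.cr i t + C.cr i u := by
  unfold cr WT.comp
  simp only [List.map_append]
  rw [← h]
  exact crs_append_le _ _ _ _ _

theorem cr_child_add_le (j : I) (t : WT S I) :
    C.cr j (C.child t false) + C.cr j (C.child t true) ≤ C.cr (C.pa j) t := by
  have h1 := C.cr_child_le j t false
  have h2 := C.cr_child_le j t true
  have h3 := C.N_add (C.pa j) (C.x j) t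
  simp only [Bool.xor_false, Bool.xor_true] at h1 h2
  omega

theorem cls_child {t u : WT S I} (h : A.cls t = A.cls u) (y : Bool) :
    A.cls (C.child t y) = A.cls (C.child u y) := by
  rw [cls_eq] at *
  simp [child, h.1, h.2.2, A.par_eq_of_ev h.2.1, A.sec_eq_of_ev h.2.1]

variable [Fintype I]

noncomputable def len (t : WT S I) : ℕ := ∑ i, C.cr i t

theorem len_child_le (t : WT S I) : C.len (C.child t false) + C.len (C.child t true) ≤ C.len t := by
  unfold len
  rw [← Finset.sum_add_distrib, ← Equiv.sum_comp C.pa (fun i => C.cr i t)]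
  exact Finset.sum_le_sum fun j _ => C.cr_child_add_le j t

theorem len_comp_le {t u : WT S I} (h : t.b = u.a) : C.len (t.comp u) ≤ C.len t + C.len u := by
  unfold len
  rw [← Finset.sum_add_distrib]
  exact Finset.sum_le_sum fun i _ => C.cr_comp_le i h

/-- Lengths add up. -/
def Add (t u : WT S I) : Prop := t.b = u.a ∧ C.len (t.comp u) = C.len t + C.len u

theorem add_cut (a b : I → Bool) (U V : List S) (w : S) :
    C.Add ⟨a, U, C.pos w⟩ ⟨C.pos w, w :: V, b⟩ := by
  refine ⟨rfl, ?_⟩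
  unfold len
  rw [← Finset.sum_add_distrib]
  refine Finset.sum_congr rfl fun i _ => ?_
  simp [CZ.cr, WT.comp, crs_append_cons, pos]

theorem exists_geo (x : A.XT I) : ∃ t, A.cls t = x ∧ ∀ u, A.cls u = x → C.len t ≤ C.len u := by
  obtain ⟨t0, h0⟩ := A.cls_surj x
  obtain ⟨t, h1, h2⟩ := (InvImage.wf C.len wellFounded_lt).has_min {t | A.cls t = x} ⟨t0, h0⟩
  exact ⟨t, h1, fun u hu => not_lt.1 (h2 u hu)⟩

noncomputable def geo (x : A.XT I) : WT S I := (C.exists_geo x).choose

theorem cls_geo (x : A.XT I) : A.cls (C.geo x) = x := (C.exists_geo x).choose_spec.1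

noncomputable def nrm (x : A.XT I) : ℕ := C.len (C.geo x)

theorem nrm_le (t : WT S I) : C.nrm (A.cls t) ≤ C.len t := (C.exists_geo _).choose_spec.2 t rfl

noncomputable def ch (x : A.XT I) (y : Bool) : A.XT I := A.cls (C.child (C.geo x) y)

theorem ch_cls (t : WT S I) (y : Bool) : C.ch (A.cls t) y = A.cls (C.child t y) :=
  C.cls_child (C.cls_geo _) y

theorem nonexp (x : A.XT I) : C.nrm (C.ch x false) + C.nrm (C.ch x true) ≤ C.nrm x :=
  (Nat.add_le_add (C.nrm_le _) (C.nrm_le _)).trans (C.len_child_le _)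

theorem nD_comp_le (D : ℕ) {t u : WT S I} (h : t.b = u.a) : nD C.nrm C.ch D (A.cls (t.comp u)) ≤
    nD C.nrm C.ch D (A.cls t) + nD C.nrm C.ch D (A.cls u) := by
  induction D generalizing t u with
  | zero =>
    simp only [nD]
    rw [← A.cls_comp (C.cls_geo (A.cls t)) (C.cls_geo (A.cls u))]
    refine (C.nrm_le _).trans (C.len_comp_le ?_)
    rw [(A.cls_eq.1 (C.cls_geo (A.cls t))).2.2, (A.cls_eq.1 (C.cls_geo (A.cls u))).1, h]
  | succ D ih =>
    simp only [nD, ch_cls, child_comp]
    have h1 := ih (t := C.child t false) (u := C.child u (xor false (A.par t.W)))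
      (by simp [child, h])
    have h2 := ih (t := C.child t true) (u := C.child u (xor true (A.par t.W)))
      (by simp [child, h])
    revert h1 h2
    cases A.par t.W <;> simp <;> omega

theorem len_le (t : WT S I) : C.len t ≤ Fintype.card I * (t.W.length + 1) := by
  unfold len
  rw [← Finset.card_univ, ← smul_eq_mul]
  refine Finset.sum_le_card_nsmul _ _ _ fun i _ => ?_
  simpa [cr] using crs_le_length (t.a i) (t.b i) (t.W.map (C.F i))

theorem len_cons (a b : I → Bool) (s : S) (W : List S) :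
    C.len ⟨a, s :: W, b⟩ = ∑ i, bd (a i) (C.pos s i) + C.len ⟨C.pos s, W, b⟩ := by
  simp [len, cr, Finset.sum_add_distrib, pos]

theorem exists_cut (t : WT S I) (M : ℕ) (h : M + Fintype.card I ≤ C.len t) :
    ∃ t1 t2, t = t1.comp t2 ∧ C.Add t1 t2 ∧ M ≤ C.len t1 ∧ C.len t1 ≤ M + Fintype.card I := by
  obtain ⟨a, W, b⟩ := t
  induction W generalizing a M with
  | nil =>
    have h1 := C.len_le ⟨a, [], b⟩
    have e : C.len ⟨a, [], a⟩ = 0 := by simp [len, cr]
    refine ⟨⟨a, [], a⟩, ⟨a, [], b⟩, rfl, ⟨rfl, by rw [e]; simp [WT.comp]⟩, ?_, by omega⟩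
    simp at h1; omega
  | cons s W ih =>
    have e0 := C.len_cons a b s W
    have hd : ∑ i, bd (a i) (C.pos s i) ≤ Fintype.card I := by
      rw [← Finset.card_univ, ← mul_one Finset.univ.card, ← smul_eq_mul]
      exact Finset.sum_le_card_nsmul _ _ _ fun i _ => bd_le _ _
    by_cases hM : M ≤ ∑ i, bd (a i) (C.pos s i)
    · have e1 := C.len_cons a (C.pos s) s []
      have e : C.len ⟨C.pos s, [], C.pos s⟩ = 0 := by simp [len, cr]
      exact ⟨⟨a, [s], C.pos s⟩, ⟨C.pos s, W, b⟩, rfl, ⟨rfl, by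
        simp only [WT.comp, List.singleton_append]; omega⟩, by omega, by omega⟩
    · obtain ⟨⟨a1, W1, b1⟩, t2, h1, h2, h3, h4⟩ := ih (M - ∑ i, bd (a i) (C.pos s i)) (C.pos s)
        (by omega)
      have h5 := h2.2
      rw [← h1] at h5
      simp only [WT.comp, WT.mk.injEq] at h1
      obtain ⟨rfl, rfl, rfl⟩ := h1
      have e1 := C.len_cons a b1 s W1
      exact ⟨⟨a, s :: W1, b1⟩, t2, rfl, ⟨h2.1, by
        simp only [WT.comp, List.cons_append]; omega⟩, by omega, by omega⟩

theorem geo_pieces {t u : WT S I} (h : C.Add t u)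
    (hg : C.len (t.comp u) = C.nrm (A.cls (t.comp u))) :
    C.len t = C.nrm (A.cls t) ∧ C.len u = C.nrm (A.cls u) := by
  have h1 := C.nD_comp_le 0 h.1
  simp only [nD] at h1
  have h2 := C.nrm_le t
  have h3 := C.nrm_le u
  have := h.2
  omega

theorem nrm_geo (x : A.XT I) : C.len (C.geo x) = C.nrm (A.cls (C.geo x)) := by rw [cls_geo]; rfl

/-- Geodesic and incompressible. -/
def Gd (t : WT S I) : Prop :=
  C.len t = C.nrm (A.cls t) ∧ ∀ E, nD C.nrm C.ch E (A.cls t) = C.nrm (A.cls t)

variable {C}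

theorem Gd.pieces {t u : WT S I} (h : C.Add t u) (hg : C.Gd (t.comp u)) : C.Gd t ∧ C.Gd u := by
  have h0 := C.geo_pieces h hg.1
  have key : ∀ E, nD C.nrm C.ch E (A.cls t) = C.nrm (A.cls t) ∧
      nD C.nrm C.ch E (A.cls u) = C.nrm (A.cls u) := by
    intro E
    have h1 := C.nD_comp_le E h.1
    have h2 := nD_anti C.nonexp (A.cls t) (Nat.zero_le E)
    have h3 := nD_anti C.nonexp (A.cls u) (Nat.zero_le E)
    simp only [nD] at h2 h3
    have := hg.1
    have := hg.2 E
    have := h.2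
    omega
  exact ⟨⟨h0.1, fun E => (key E).1⟩, h0.2, fun E => (key E).2⟩

theorem Gd.one {t : WT S I} (h : C.Gd t) :
    C.nrm (A.cls (C.child t false)) + C.nrm (A.cls (C.child t true)) = C.len t := by
  have h1 := h.2 1
  simp only [nD, ch_cls] at h1
  rw [h1, h.1]

theorem Gd.child {t : WT S I} (h : C.Gd t) (y : Bool) : C.Gd (C.child t y) := by
  have h1 := h.one
  have h2 := C.nrm_le (C.child t false)
  have h3 := C.nrm_le (C.child t true)
  have h4 := C.len_child_le t
  refine ⟨by cases y <;> omega, fun E => ?_⟩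
  have h5 := h.2 (E + 1)
  rw [nD, ch_cls, ch_cls, ← h.1] at h5
  have h6 := nD_anti C.nonexp (A.cls (C.child t false)) (Nat.zero_le E)
  have h7 := nD_anti C.nonexp (A.cls (C.child t true)) (Nat.zero_le E)
  simp only [nD] at h6 h7
  cases y <;> omega

theorem Gd.of_le {t u : WT S I} (h : C.Gd t) (e : A.cls u = A.cls t) (hl : C.len u ≤ C.len t) :
    C.Gd u := by
  have h1 := C.nrm_le u
  have h2 := h.1
  refine ⟨?_, by rw [e]; exact h.2⟩
  rw [e] at h1 ⊢
  omega

theorem gd_zero {t : WT S I} (h : C.len t = 0) : C.Gd t := by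
  have h1 := C.nrm_le t
  refine ⟨by omega, fun E => ?_⟩
  have h2 := nD_anti C.nonexp (A.cls t) (Nat.zero_le E)
  simp only [nD] at h2
  omega

end CZ

/-- Reduction of words. -/
def Rd {S : Type} (A : KA S) (W W' : List S) : Prop := A.ev W = A.ev W' ∧ W'.Sublist W

section
variable {S : Type} {A : KA S}

theorem Rd.rfl' (W : List S) : Rd A W W := ⟨rfl, List.Sublist.refl _⟩

theorem Rd.trans {U V W : List S} (h : Rd A U V) (h' : Rd A V W) : Rd A U W :=
  ⟨h.1.trans h'.1, h'.2.trans h.2⟩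

theorem Rd.app {U U' V V' : List S} (h : Rd A U U') (h' : Rd A V V') :
    Rd A (U ++ V) (U' ++ V') :=
  ⟨by rw [ev_append, ev_append, h.1, h'.1], h.2.append h'.2⟩

theorem rd_two (s : S) (W : List S) : Rd A (s :: s :: W) W :=
  ⟨by rw [ev_cons, ev_cons, mul_assoc, gen_mul_self, mul_one],
    ((List.Sublist.refl W).cons s).cons s⟩

theorem exists_red (W : List S) : ∃ W', Rd A W W' ∧ W'.IsChain (· ≠ ·) := by
  induction W with
  | nil => exact ⟨[], Rd.rfl' _, List.isChain_nil⟩
  | cons s W ih =>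
    obtain ⟨W', h1, h2⟩ := ih
    have h3 : Rd A (s :: W) (s :: W') := (Rd.rfl' [s]).app h1
    cases W' with
    | nil => exact ⟨[s], h3, List.isChain_singleton _⟩
    | cons r V =>
      by_cases e : s = r
      · subst e
        exact ⟨V, h3.trans (rd_two s V), h2.tail⟩
      · exact ⟨s :: r :: V, h3, List.isChain_cons_cons.2 ⟨e, h2⟩⟩

end

namespace CZ

variable {S I : Type} {A : KA S} [Fintype I] (C : CZ A I)

theorem len_rd (p q : I → Bool) {W W' : List S} (h : Rd A W W') :
    C.len ⟨p, W', q⟩ ≤ C.len ⟨p, W, q⟩ :=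
  Finset.sum_le_sum fun _ _ => crs_sublist (h.2.map _) _ _

/-- Factors of geodesic incompressible words. -/
def GW (W : List S) : Prop := ∃ p U V q, C.Gd ⟨p, U ++ W ++ V, q⟩

variable {C}

theorem GW.fac {U W V : List S} (h : C.GW (U ++ W ++ V)) : C.GW W := by
  obtain ⟨p, U', V', q, h⟩ := h
  exact ⟨p, U' ++ U, V ++ V', q, by simpa using h⟩

theorem GW.sec {W : List S} (h : C.GW W) (y : Bool) : C.GW (A.sec W y) := by
  obtain ⟨p, U, V, q, h⟩ := h
  have h1 := h.child (xor y (A.par U))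
  simp only [CZ.child, sec_append, Bool.xor_assoc, Bool.xor_self, Bool.xor_false] at h1
  exact ⟨_, _, _, _, h1⟩

theorem GW.rd {W W' : List S} (h : C.GW W) (hr : Rd A W W') : C.GW W' := by
  obtain ⟨p, U, V, q, h⟩ := h
  have h1 : Rd A (U ++ W ++ V) (U ++ W' ++ V) := ((Rd.rfl' U).app hr).app (Rd.rfl' V)
  exact ⟨p, U, V, q, h.of_le (A.cls_eq.2 ⟨rfl, h1.1.symm, rfl⟩) (C.len_rd p q h1)⟩

theorem GW.cut {s r : S} {M : List S} (h : C.GW (s :: M ++ [r])) :
    C.Gd ⟨C.pos s, s :: M, C.pos r⟩ := by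
  obtain ⟨p, U, V, q, h⟩ := h
  have h1 := (Gd.pieces (C.add_cut p q U (M ++ r :: V) s) (by simpa [WT.comp] using h)).2
  exact (Gd.pieces (C.add_cut (C.pos s) q (s :: M) V r) (by simpa [WT.comp] using h1)).1

variable (C) (hp : Function.Injective C.pos)
include hp

theorem red_len0 (W : List S) (s : S) (q : I → Bool) (h : (s :: W).IsChain (· ≠ ·)) :
    W.length ≤ C.len ⟨C.pos s, W, q⟩ := by
  induction W generalizing s with
  | nil => simp
  | cons r W ih =>
    obtain ⟨h1, h2⟩ := List.isChain_cons_cons.1 h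
    have h3 := ih r h2
    obtain ⟨i, hi⟩ := Function.ne_iff.1 (fun e => h1 (hp e))
    have h4 : bd (C.pos s i) (C.pos r i) ≤ ∑ i, bd (C.pos s i) (C.pos r i) :=
      Finset.single_le_sum (f := fun i => bd (C.pos s i) (C.pos r i)) (fun _ _ => Nat.zero_le _)
        (Finset.mem_univ i)
    rw [bd, if_neg hi] at h4
    rw [len_cons, List.length_cons]
    omega

theorem red_len (W : List S) (p q : I → Bool) (h : W.IsChain (· ≠ ·)) :
    W.length ≤ C.len ⟨p, W, q⟩ + 1 := by
  cases W with
  | nil => simp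
  | cons s W =>
    have := C.red_len0 hp W s q h
    rw [len_cons, List.length_cons]
    omega

theorem cnt_finite [Finite S] (k : ℕ) : (cnt Set.univ C.nrm k).Finite := by
  refine Set.Finite.of_injOn (f := fun x : A.XT I => (x.1, x.2.1.1, x.2.2))
    (t := Set.univ ×ˢ A.wball (k + 1) ×ˢ Set.univ) ?_ ?_
    (Set.finite_univ.prod ((A.wball_finite _).prod Set.finite_univ))
  · intro x hx
    refine ⟨trivial, ?_, trivial⟩
    obtain ⟨W, h1, h2⟩ := exists_red (A := A) (C.geo x).W
    refine ⟨W, ?_, ?_⟩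
    · have a1 := C.red_len hp W (C.geo x).a (C.geo x).b h2
      have a2 : C.len ⟨(C.geo x).a, W, (C.geo x).b⟩ ≤ C.nrm x := C.len_rd _ _ h1
      have a3 : C.nrm x ≤ k := hx.2
      omega
    · rw [← h1.1]; conv_rhs => rw [← C.cls_geo x]
      rfl
  · rintro ⟨a, ⟨g, hg⟩, b⟩ _ ⟨a', ⟨g', hg'⟩, b'⟩ _ e
    simpa using e

variable (hI : Rate {x | ∀ E, nD C.nrm C.ch E x = C.nrm x} C.nrm 0)
include hI

theorem rate_all [Finite S] : Rate Set.univ C.nrm 0 := by
  refine criterion C.nonexp (C.cnt_finite hp) (fun x => (x.1, x.2.2, A.par (C.geo x).W)) ?_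
    (fun x1 x2 => A.cls ((C.geo x1).comp (C.geo x2))) (Fintype.card I) ?_ hI
  · intro x y e h0 h1
    simp only [Prod.mk.injEq] at e
    rw [← C.cls_geo x, ← C.cls_geo y, cls_eq]
    refine ⟨?_, A.ev_eq_of_sec e.2.2 fun b => ?_, ?_⟩
    · have := e.1
      rwa [← C.cls_geo x, ← C.cls_geo y] at this
    · cases b
      · exact (A.cls_eq.1 h0).2.1
      · exact (A.cls_eq.1 h1).2.1
    · have := e.2.1
      rwa [← C.cls_geo x, ← C.cls_geo y] at this
  · intro M D x h
    obtain ⟨t1, t2, e, h1, h2, h3⟩ := C.exists_cut (C.geo x) M h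
    have hp := C.geo_pieces h1 (e ▸ C.nrm_geo x)
    have ex : x = A.cls (t1.comp t2) := by rw [← e, cls_geo]
    refine ⟨A.cls t1, A.cls t2, ?_, by omega, by omega, ?_, ?_⟩
    · rw [ex]; exact A.cls_comp (C.cls_geo _).symm (C.cls_geo _).symm
    · rw [← hp.1, ← hp.2, ← h1.2, ← e]; rfl
    · rw [ex]; exact C.nD_comp_le D h1.1

theorem subexp [Finite S] (δ : ℝ) (hδ : 0 < δ) :
    ∃ K : ℝ, ∀ n : ℕ, ((A.wball n).ncard : ℝ) ≤ K * Real.exp (δ * n) := by
  set c := Fintype.card I
  obtain ⟨K, K0, hK⟩ := (C.rate_all hp hI).pos (δ / (c + 1)) (by positivity)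
  refine ⟨K * Real.exp δ, fun n => ?_⟩
  have h1 : (A.wball n).ncard ≤ (cnt Set.univ C.nrm (c * (n + 1))).ncard := by
    refine le_trans (Set.ncard_le_ncard ?_ ((hK _).1.image _))
      (Set.ncard_image_le (f := fun x : A.XT I => x.2.1.1) (hK _).1)
    rintro g ⟨W, h1, rfl⟩
    refine ⟨A.cls ⟨fun _ => false, W, fun _ => false⟩, ⟨trivial, ?_⟩, rfl⟩
    exact (C.nrm_le _).trans ((C.len_le _).trans (by gcongr))
  have h2 : ((A.wball n).ncard : ℝ) ≤ _ := le_trans (by exact_mod_cast h1) (hK _).2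
  refine h2.trans ?_
  rw [mul_assoc, ← Real.exp_add]
  gcongr
  push_cast
  have : δ / (c + 1) * c ≤ δ := by
    rw [div_mul_eq_mul_div, div_le_iff₀ (by positivity)]; nlinarith
  have hn : (0 : ℝ) ≤ n := Nat.cast_nonneg n
  calc (0 + δ / (c + 1)) * (c * (n + 1)) = δ / (c + 1) * c * (n + 1) := by ring
    _ ≤ δ * (n + 1) := by gcongr
    _ = _ := by ring

end CZ

theorem interm {S : Type} (A : KA S) [Fintype S] (h3 : 3 ≤ Fintype.card S)
    (hs : ∀ δ : ℝ, 0 < δ → ∃ K : ℝ, ∀ n : ℕ, ((A.wball n).ncard : ℝ) ≤ K * Real.exp (δ * n)) :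
    IntermediateGrowth A.G := by
  classical
  have hb : ∀ n, A.wball n = Subtype.val '' ball (Finset.univ.image A.ga) n := by
    intro n
    ext g
    constructor
    · rintro ⟨W, h1, rfl⟩
      refine ⟨A.el W, ⟨W.reverse.map A.ga, by simpa using h1, ?_, ?_⟩, rfl⟩
      · intro x hx
        obtain ⟨s, _, rfl⟩ := List.mem_map.1 hx
        simp
      · clear h1
        induction W with
        | nil => rfl
        | cons s W ih =>
          rw [List.reverse_cons, List.map_append, List.prod_append, ih]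
          simpa [ga] using (A.el_append [s] W).symm
    · rintro ⟨_, ⟨l, h1, h2, rfl⟩, rfl⟩
      induction l generalizing n with
      | nil => exact ⟨[], by simp, rfl⟩
      | cons x l ih =>
        obtain ⟨W, a1, a2⟩ := ih l.length le_rfl fun y hy => h2 y (by simp [hy])
        obtain ⟨s, rfl⟩ : ∃ s, A.ga s = x := by
          rcases h2 x (by simp) with h | h
          · simpa using h
          · obtain ⟨s, _, hs⟩ := Finset.mem_image.1 h
            exact ⟨s, by rw [← ga_inv, hs, inv_inv]⟩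
        refine ⟨W ++ [s], by simp at h1 ⊢; omega, ?_⟩
        rw [ev_append, a2]; rfl
  have hg : ∀ n, growth (Finset.univ.image A.ga) n = (A.wball n).ncard := fun n => by
    rw [hb, Set.ncard_image_of_injective _ Subtype.val_injective, growth]
  refine ⟨Finset.univ.image A.ga, ?_, ?_, ?_⟩
  · rw [eq_top_iff]
    intro g _
    obtain ⟨W, rfl⟩ := A.el_surj g
    induction W using List.reverseRecOn with
    | nil => exact one_mem _
    | append_singleton W s ih =>
      rw [el_append]
      exact mul_mem (Subgroup.subset_closure (by simp [ga])) (ih trivial)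
  · simp only [hg]
    exact tendsto_of_poly (γ := fun n => (A.wball n).ncard)
      (fun m n h => Set.ncard_le_ncard (fun g ⟨W, h1, h2⟩ => ⟨W, h1.trans h, h2⟩)
        (A.wball_finite _)) (A.superpoly h3)
  · simp only [hg]
    exact tendsto_of_subexp (γ := fun n => (A.wball n).ncard) hs

theorem crs_zero (c : Bool) (l : List Bool) (h : ∀ d ∈ l, d = c) : crs c l c = 0 := by
  induction l with
  | nil => simp
  | cons d l ih =>
    have e := h d (by simp)
    subst e
    simpa using ih fun e he => h e (by simp [he])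

/-- A letter is not followed directly by the same letter. -/
def Red : Bool → Tk → Prop
  | _, [] => True
  | p, (g, x) :: T => (x = p → g = true) ∧ Red x T

theorem red_pre (T T' : Tk) (p : Bool) (h : Red p (T ++ T')) : Red p T := by
  induction T generalizing p with
  | nil => trivial
  | cons t T ih => exact ⟨h.1, ih _ h.2⟩

theorem red_chd (T : Tk) : (∀ p, Red p T → Red (!p) (chd none T)) ∧
    ∀ p q g, Red p T → (q = false → g = true) → Red q (chd (some g) T) := by
  induction T with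
  | nil => exact ⟨fun _ _ => trivial, fun _ _ _ _ _ => trivial⟩
  | cons t T ih =>
    obtain ⟨g, x⟩ := t
    cases x
    · exact ⟨fun p h => ⟨fun e => h.1 (by revert e; cases p <;> simp), ih.1 false h.2⟩,
        fun p q k h hq => ih.2 false q k h.2 hq⟩
    · exact ⟨fun p h => ih.2 true _ g h.2 fun e => h.1 (by revert e; cases p <;> simp),
        fun p q k h hq => ⟨fun e => hq e.symm, ih.1 true h.2⟩⟩

theorem chd_some (T : Tk) (k : Bool) (t : Bool × Bool) (Y : Tk) (h : chd (some k) T = t :: Y) :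
    chd (some false) T = (false, false) :: Y := by
  induction T with
  | nil => simp [chd] at h
  | cons u T ih =>
    obtain ⟨g, x⟩ := u
    cases x
    · exact ih h
    · simp only [chd, List.cons.injEq] at h ⊢
      exact ⟨trivial, h.2⟩

section

variable {S : Type} (A : KA S)

def Cc (g : Bool) : List S := if g then [A.nx (A.nx A.sg)] else []

def Bb (g : Bool) : List S := if g then [A.nx A.sg] else []

def lt (x : Bool) : S := if x then A.sg else A.nx A.sg

def tau : Tk → List S
  | [] => []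
  | (g, x) :: T => Cc A g ++ lt A x :: tau T

theorem tau_append (T T' : Tk) : tau A (T ++ T') = tau A T ++ tau A T' := by
  induction T with
  | nil => rfl
  | cons t T ih => simp [tau, ih]

theorem tau_len (T : Tk) : T.length ≤ (tau A T).length := by
  induction T with
  | nil => simp
  | cons t T ih => simp only [tau, List.length_cons, List.length_append]; omega

theorem rd_Bb (π g : Bool) : Rd A (Bb A π ++ Bb A g) (Bb A (xor π g)) := by
  cases π <;> cases g
  · exact Rd.rfl' _
  · exact Rd.rfl' _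
  · exact Rd.rfl' _
  · exact rd_two _ []

theorem sec_a (W : List S) (y : Bool) : A.sec (A.sg :: W) y = A.sec W (!y) := by
  simp [sec_cons, prev_sg]

theorem sec_b1 (W : List S) :
    A.sec (A.nx A.sg :: W) (A.cl A.sg) = A.sg :: A.sec W (A.cl A.sg) := by
  simp [sec_cons, prev_nx]

theorem sg_not_mem (g : Bool) : A.sg ∉ Cc A g := by
  cases g
  · simp [Cc]
  · simpa [Cc] using (A.ha _).symm

/-- The three-state case. -/
structure T3 : Prop where
  h1 : A.nx (A.nx (A.nx A.sg)) = A.nx (A.nx A.sg)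
  h2 : A.nx A.sg ≠ A.nx (A.nx A.sg)
  h3 : A.cl (A.nx (A.nx A.sg)) = A.cl A.sg

variable {A}

namespace T3

variable (h : T3 A)
include h

theorem tri (s : S) : s = A.sg ∨ s = A.nx A.sg ∨ s = A.nx (A.nx A.sg) := by
  obtain ⟨k, rfl⟩ := A.hc s
  induction k with
  | zero => exact Or.inl rfl
  | succ k ih =>
    rw [Function.iterate_succ_apply']
    rcases ih with e | e | e <;> rw [e]
    · exact Or.inr (Or.inl rfl)
    · exact Or.inr (Or.inr rfl)
    · exact Or.inr (Or.inr h.h1)

theorem clb : A.cl (A.nx A.sg) = !A.cl A.sg := by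
  have : A.cl (A.nx A.sg) ≠ A.cl A.sg := fun e => h.h2 (A.hb _ _ h.h1.symm (e.trans h.h3.symm))
  revert this
  cases A.cl (A.nx A.sg) <;> cases A.cl A.sg <;> simp

theorem sec_b0 (W : List S) : A.sec (A.nx A.sg :: W) (!A.cl A.sg) = A.sec W (!A.cl A.sg) := by
  have : A.prev (!A.cl A.sg) (A.nx A.sg) = none := by
    refine A.prev_eq_none.2 fun t e => ?_
    rcases h.tri t with rfl | rfl | rfl
    · simp
    · exact absurd e.symm h.h2
    · exact absurd (e.symm.trans h.h1) h.h2
  simp [sec_cons, this]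

theorem sec_C1 (g : Bool) (W : List S) :
    A.sec (Cc A g ++ W) (A.cl A.sg) = Cc A g ++ A.sec W (A.cl A.sg) := by
  have : A.prev (A.cl A.sg) (A.nx (A.nx A.sg)) = some (A.nx (A.nx A.sg)) :=
    A.prev_eq_some.2 ⟨h.h1, h.h3⟩
  cases g <;> simp [Cc, sec_cons, this]

theorem sec_C0 (g : Bool) (W : List S) :
    A.sec (Cc A g ++ W) (!A.cl A.sg) = Bb A g ++ A.sec W (!A.cl A.sg) := by
  have : A.prev (!A.cl A.sg) (A.nx (A.nx A.sg)) = some (A.nx A.sg) :=
    A.prev_eq_some.2 ⟨rfl, h.clb⟩
  cases g <;> simp [Cc, Bb, sec_cons, this]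

theorem sec_tau (T : Tk) :
    (∀ s, od true s T → ∃ Z, Rd A (A.sec (tau A T) (A.cl A.sg)) (tau A (chd none T) ++ Z)) ∧
    ∀ π k, od true (some π) T → ∃ Z, Rd A (Cc A k ++ Bb A π ++ A.sec (tau A T) (!A.cl A.sg))
      (tau A (chd (some k) T) ++ Z) := by
  induction T with
  | nil => exact ⟨fun _ _ => ⟨[], Rd.rfl' _⟩, fun π k _ => ⟨_, Rd.rfl' _⟩⟩
  | cons t T ih =>
    obtain ⟨g, x⟩ := t
    cases x
    · constructor
      · intro s ho
        obtain ⟨Z, hZ⟩ := ih.1 _ (by simpa [od] using ho)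
        refine ⟨Z, ?_⟩
        have := (Rd.rfl' (Cc A g ++ [A.sg])).app hZ
        simpa [tau, chd, lt, h.sec_C1, sec_b1] using this
      · intro π k ho
        obtain ⟨Z, hZ⟩ := ih.2 (xor π g) k (by simpa [od] using ho)
        refine ⟨Z, Rd.trans ?_ hZ⟩
        have := ((Rd.rfl' (Cc A k)).app (rd_Bb A π g)).app
          (Rd.rfl' (A.sec (tau A T) (!A.cl A.sg)))
        simpa [tau, lt, h.sec_C0, h.sec_b0] using this
    · constructor
      · intro s ho
        obtain ⟨Z, hZ⟩ := ih.2 false g (by simp only [od, if_true] at ho; exact ho.2)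
        exact ⟨Z, by simpa [tau, chd, lt, h.sec_C1, sec_a, Bb] using hZ⟩
      · intro π k ho
        simp only [od, if_true] at ho
        obtain ⟨Z, hZ⟩ := ih.1 _ ho.2
        refine ⟨Z, ?_⟩
        have e := ho.1 π rfl
        have := ((Rd.rfl' (Cc A k)).app (rd_Bb A π g)).app hZ
        rw [e] at this
        simpa [tau, chd, lt, h.sec_C0, sec_a, show Bb A true = [A.nx A.sg] from rfl] using this

theorem decomp (W : List S) (p g : Bool) (hW : (lt A p :: (Cc A g ++ W)).IsChain (· ≠ ·)) :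
    ∃ T e1, Cc A g ++ W = tau A T ++ Cc A e1 ∧ Red p T := by
  induction W generalizing p g with
  | nil => exact ⟨[], g, by simp [tau], trivial⟩
  | cons s W ih =>
    have key : ∀ z, s = lt A z → ∃ T e1, Cc A g ++ s :: W = tau A T ++ Cc A e1 ∧ Red p T := by
      rintro z rfl
      have h1 : (lt A z :: (Cc A false ++ W)).IsChain (· ≠ ·) := by
        cases g
        · exact hW.tail
        · exact hW.tail.tail
      obtain ⟨T, e1, a1, a2⟩ := ih z false h1
      refine ⟨(g, z) :: T, e1, by simpa [tau, Cc] using a1, ?_, a2⟩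
      rintro rfl
      cases g
      · exact absurd rfl (List.isChain_cons_cons.1 hW).1
      · rfl
    rcases h.tri s with e | e | e
    · exact key true e
    · exact key false e
    · subst e
      cases g
      · exact ih p true hW
      · exact absurd rfl (List.isChain_cons_cons.1 hW.tail).1

theorem decomp' (W : List S) (hW : W.IsChain (· ≠ ·)) :
    (∃ g, W = Cc A g) ∨ ∃ g p T e1, W = Cc A g ++ (lt A p :: tau A T) ++ Cc A e1 ∧ Red p T := by
  have key : ∀ g z V, W = Cc A g ++ lt A z :: V → ∃ g p T e1,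
      W = Cc A g ++ (lt A p :: tau A T) ++ Cc A e1 ∧ Red p T := by
    rintro g z V rfl
    have h1 : (lt A z :: (Cc A false ++ V)).IsChain (· ≠ ·) := by
      cases g
      · exact hW
      · exact hW.tail
    obtain ⟨T, e1, a1, a2⟩ := h.decomp V z false h1
    exact ⟨g, z, T, e1, by simpa [Cc] using a1, a2⟩
  cases W with
  | nil => exact Or.inl ⟨false, rfl⟩
  | cons s W =>
    rcases h.tri s with rfl | rfl | rfl
    · exact Or.inr (key false true W rfl)
    · exact Or.inr (key false false W rfl)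
    · cases W with
      | nil => exact Or.inl ⟨true, rfl⟩
      | cons r W =>
        rcases h.tri r with rfl | rfl | rfl
        · exact Or.inr (key true true W rfl)
        · exact Or.inr (key true false W rfl)
        · exact absurd rfl (List.isChain_cons_cons.1 hW).1

/-- The two cuts. -/
noncomputable def C3 : CZ A Bool where
  F := fun i => match i with
    | false => A.cut0
    | true => fun s => xor (A.cl s) (A.cl A.sg)
  pa := Equiv.boolNot
  x := fun i => xor i (A.cl A.sg)
  hF := by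
    intro i
    cases i
    · funext s
      rcases h.tri s with rfl | rfl | rfl <;> simp [step, cut0, h.clb, h.h1, h.h3]
    · exact (A.step_cut0 _).symm

theorem pos_inj : Function.Injective h.C3.pos := by
  intro s t e
  have e0 : A.cut0 s = A.cut0 t := congrFun e false
  have e1 : xor (A.cl s) (A.cl A.sg) = xor (A.cl t) (A.cl A.sg) := congrFun e true
  rcases h.tri s with rfl | rfl | rfl <;> rcases h.tri t with rfl | rfl | rfl <;>
    simp [cut0, h.clb, h.h3] at e0 e1 ⊢

theorem f1 {M : List S} (hG : h.C3.GW (A.sg :: M ++ [A.sg])) (ha : A.sg ∉ M) (hM : M ≠ []) :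
    A.ev (A.sec M (!A.cl A.sg)) ≠ 1 := by
  intro h1
  have g := hG.cut
  set t : WT S Bool := ⟨h.C3.pos A.sg, A.sg :: M, h.C3.pos A.sg⟩ with ht
  have hl : ∀ y, h.C3.lp (h.C3.pos A.sg) y = h.C3.fl := fun y => by
    funext i; simp [CZ.lp, CZ.pos, CZ.F_sg]
  have hc : ∀ y, h.C3.child t y = ⟨h.C3.fl, A.sec M (!y), h.C3.fl⟩ := fun y => by
    simp [CZ.child, ht, hl, sec_a]
  have a0 : h.C3.nrm (A.cls (h.C3.child t (A.cl A.sg))) +
      h.C3.nrm (A.cls (h.C3.child t (!A.cl A.sg))) = h.C3.len t := by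
    have := g.one
    cases A.cl A.sg
    · exact this
    · rw [add_comm]; exact this
  have a1 : h.C3.nrm (A.cls (h.C3.child t (A.cl A.sg))) = 0 := by
    have e : A.cls (h.C3.child t (A.cl A.sg)) = A.cls ⟨h.C3.fl, [], h.C3.fl⟩ := by
      rw [hc]; exact A.cls_eq.2 ⟨rfl, h1, rfl⟩
    have := h.C3.nrm_le ⟨h.C3.fl, [], h.C3.fl⟩
    rw [e]
    simpa [CZ.len, CZ.cr] using this
  have a2 := h.C3.nrm_le (h.C3.child t (!A.cl A.sg))
  have a3 : h.C3.cr true (h.C3.child t (!A.cl A.sg)) = 0 := by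
    rw [hc]
    refine crs_zero _ _ fun d hd => ?_
    obtain ⟨s, hs, rfl⟩ := List.mem_map.1 hd
    have := A.cl_of_mem_sec ha hs
    simp [C3, CZ.fl, this]
  have a4 := h.C3.cr_child_le false t (!A.cl A.sg)
  have a5 := h.C3.N_add true (xor (h.C3.x false) (!A.cl A.sg)) t
  have a6 : 1 ≤ h.C3.cr false t := by
    obtain ⟨s, M', rfl⟩ := List.exists_cons_of_ne_nil hM
    have hs : s ≠ A.sg := fun e => ha (by simp [e])
    simp [CZ.cr, ht, CZ.pos, C3, cut0, A.isg_ne hs, bd]
  simp only [CZ.len, Fintype.sum_bool] at a0 a2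
  change _ ≤ h.C3.N true _ t at a4
  omega

/-- The family of token paths. -/
def Gam (p : Bool) (T : Tk) : Prop := h.C3.GW (lt A p :: tau A T) ∧ Red p T

theorem gam_tl (p : Bool) (t : Bool × Bool) (T : Tk) (g : h.Gam p (t :: T)) : h.Gam t.2 T :=
  ⟨CZ.GW.fac (U := lt A p :: Cc A t.1) (V := []) (by simpa [tau] using g.1), g.2.2⟩

theorem odd_aux (T : Tk) (M : List S) (π p : Bool) (ha : A.sg ∉ M)
    (hπ : A.ev (A.sec M (!A.cl A.sg)) = A.ev (Bb A π)) (hG : h.C3.GW (A.sg :: M ++ tau A T))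
    (hr : Red p T) (hp : M = [] → p = true) : od true (some π) T := by
  induction T generalizing M π p with
  | nil => trivial
  | cons t T ih =>
    obtain ⟨g, x⟩ := t
    have ha' : A.sg ∉ M ++ Cc A g := by simp [ha, sg_not_mem]
    have e1 : ∀ V, A.ev (A.sec (M ++ Cc A g ++ V) (!A.cl A.sg)) =
        A.ev (Bb A (xor π g) ++ A.sec V (!A.cl A.sg)) := fun V => by
      rw [List.append_assoc, sec_append, A.par_of_not_mem ha, Bool.xor_false, h.sec_C0,
        ev_append, ev_append, ev_append, hπ, ← (rd_Bb A π g).1, ev_append, mul_assoc]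
    cases x
    · simp only [od, Bool.false_eq_true, if_false, Option.map_some]
      refine ih (M ++ Cc A g ++ [A.nx A.sg]) _ false ?_ ?_ (by simpa [tau, lt] using hG) hr.2
        (by simp)
      · rw [List.mem_append, not_or]
        exact ⟨ha', by simpa using (A.ha _).symm⟩
      · rw [e1, h.sec_b0]; simp
    · simp only [od, if_true]
      refine ⟨fun π' e => ?_, ih [] false true (by simp) rfl
        (CZ.GW.fac (U := A.sg :: M ++ Cc A g) (V := []) (by simpa [tau, lt] using hG)) hr.2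
        fun _ => rfl⟩
      obtain rfl : π = π' := Option.some.inj e
      by_contra hx
      have hx' : xor π g = false := by simpa using hx
      refine h.f1 (M := M ++ Cc A g)
        (CZ.GW.fac (U := []) (V := tau A T) (by simpa [tau, lt] using hG)) ha' ?_ ?_
      · intro e0
        obtain ⟨e2, e3⟩ := List.append_eq_nil_iff.1 e0
        have := hr.1 (hp e2).symm
        subst this
        simp [Cc] at e3
      · have := e1 []
        rw [hx'] at this
        simpa [Bb] using this

theorem gam_odd (T : Tk) (g : h.Gam true T) : od true (some false) T :=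
  h.odd_aux T [] false true (by simp) rfl g.1 g.2 fun _ => rfl

theorem gam_none (T : Tk) (p : Bool) (g : h.Gam p T) : od true none T := by
  induction T generalizing p with
  | nil => trivial
  | cons t T ih =>
    have g' := h.gam_tl p t T g
    obtain ⟨k, x⟩ := t
    cases x
    · simpa [od] using ih false g'
    · simpa [od] using h.gam_odd T g'

theorem sys : Sys h.Gam where
  tl := h.gam_tl
  pre := fun p T T' g => ⟨CZ.GW.fac (U := []) (V := tau A T')
    (by simpa [tau_append] using g.1), red_pre T T' p g.2⟩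
  odd := h.gam_odd
  c1 := fun T g => by
    obtain ⟨Z, hZ⟩ := (h.sec_tau T).1 _ (h.gam_none T _ g)
    have h1 := g.1.sec (A.cl A.sg)
    rw [show lt A false = A.nx A.sg from rfl, sec_b1] at h1
    have h2 := h1.rd ((Rd.rfl' [A.sg]).app hZ)
    exact ⟨CZ.GW.fac (U := []) (V := Z) (by simpa [lt] using h2), (red_chd T).1 false g.2⟩
  c0 := fun T k t Y g e => by
    obtain ⟨Z, hZ⟩ := (h.sec_tau T).2 false false (h.gam_odd T g)
    have e' := chd_some T k t Y e
    have h1 := g.1.sec (A.cl A.sg)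
    rw [show lt A true = A.sg from rfl, sec_a] at h1
    have h2 := h1.rd hZ
    have h3 := (red_chd T).2 true true false g.2 (by simp)
    rw [e'] at h2 h3
    exact ⟨CZ.GW.fac (U := []) (V := Z) (by simpa [tau, Cc] using h2), h3.2⟩

theorem rate_inc (hC : CoreSt) :
    Rate {x | ∀ E, nD h.C3.nrm h.C3.ch E x = h.C3.nrm x} h.C3.nrm 0 := by
  have hR := (rate_finite (K := (Bool → Bool) × (Bool → Bool) × Bool × Bool × Bool) le_rfl).pair
    (hC _ h.sys)
  let dec : ((Bool → Bool) × (Bool → Bool) × Bool × Bool × Bool) × Bool × Tk → A.XT Bool :=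
    fun y => A.cls ⟨y.1.1, if y.1.2.2.1 then Cc A y.1.2.2.2.1 ++ (lt A y.2.1 :: tau A y.2.2) ++
      Cc A y.1.2.2.2.2 else Cc A y.1.2.2.2.1, y.1.2.1⟩
  have hex : ∀ x : A.XT Bool, (∀ E, nD h.C3.nrm h.C3.ch E x = h.C3.nrm x) →
      ∃ y, h.Gam y.2.1 y.2.2 ∧ y.2.2.length ≤ h.C3.nrm x ∧ dec y = x := by
    intro x hx
    have g0 : h.C3.Gd (h.C3.geo x) := ⟨h.C3.nrm_geo x, by rw [CZ.cls_geo]; exact hx⟩
    obtain ⟨W, h1, h2⟩ := exists_red (A := A) (h.C3.geo x).W
    have e : A.cls ⟨(h.C3.geo x).a, W, (h.C3.geo x).b⟩ = A.cls (h.C3.geo x) :=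
      A.cls_eq.2 ⟨rfl, h1.1.symm, rfl⟩
    have a2 : h.C3.len ⟨(h.C3.geo x).a, W, (h.C3.geo x).b⟩ ≤ h.C3.nrm x := h.C3.len_rd _ _ h1
    have g1 := g0.of_le e a2
    have a1 := h.C3.red_len h.pos_inj W (h.C3.geo x).a (h.C3.geo x).b h2
    rw [CZ.cls_geo] at e
    rcases h.decomp' W h2 with ⟨g, rfl⟩ | ⟨g, p, T, e1, rfl, hr⟩
    · refine ⟨(((h.C3.geo x).a, (h.C3.geo x).b, false, g, false), true, []), ⟨⟨h.C3.pos A.sg, [], [],
        h.C3.pos A.sg, CZ.gd_zero ?_⟩, trivial⟩, by simp, e⟩
      simp [CZ.len, CZ.cr, tau, lt, CZ.pos]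
    · refine ⟨(((h.C3.geo x).a, (h.C3.geo x).b, true, g, e1), p, T), ⟨⟨_, _, _, _, g1⟩, hr⟩, ?_, e⟩
      have := tau_len A T
      simp only [List.length_append, List.length_cons] at a1 ⊢
      omega
  choose! φ hφ using hex
  refine hR.of_inj φ (fun x hx y hy e => ?_) fun x hx => ⟨⟨trivial, (hφ x hx).1⟩, ?_⟩
  · rw [← (hφ x hx).2.2, e, (hφ y hy).2.2]
  · simpa using (hφ x hx).2.1

end T3

end

end I3

theorem int3_st (hC : CoreSt) : Int3St := by
  intro S _ A h1 h2 h3
  have h : I3.T3 A := ⟨h1, h2, h3.symm⟩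
  refine I3.interm A ?_ (h.C3.subexp h.pos_inj (h.rate_inc hC))
  exact Fintype.two_lt_card_iff.2 ⟨A.sg, A.nx A.sg, A.nx (A.nx A.sg), (A.ha _).symm,
    (A.ha _).symm, h2⟩

end Pool.Agent.MP_61ef33_al.R
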