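import Pool.Agent.MP_61ef33_al.R.St

namespace Pool.Agent.MP_61ef33_al.R

open Filter Topology Set Polynomial

open Classical in
theorem dec_Link {z w : ℂ} {a : Bool} (h : z = sg a * w) (h0 : z ≠ 0) :
    decide (z = w) = !a := by
  have hw : w ≠ 0 := fun e => h0 (by rw [h, e, mul_zero])
  cases a
  · simpa [sg] using h
  · simp only [Bool.not_true, decide_eq_false_iff_not]
    intro e
    apply hw
    simp only [sg, if_true] at h
    linear_combination (h - e) / 2

theorem link_st : LinkSt := by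
  classical
  intro c hfin h0
  obtain ⟨B, rfl, R0, hR⟩ := exists_BD c (by
    rw [postcrit_quad] at hfin
    obtain ⟨M, hM⟩ := isBounded_iff_forall_norm_le.1 hfin.isBounded
    exact ⟨M, fun k => hM _ ⟨k, rfl⟩⟩)
  have hP : postcrit (X ^ 2 + C B.c) = B.P := postcrit_quad B.c
  rw [hP] at hfin h0 ⊢
  have M := B.mis_of_finite hfin h0
  have := hfin.to_subtype
  have := Fintype.ofFinite B.P
  obtain ⟨θ, hθ⟩ := M.lands_c hfin hR
  obtain ⟨A, a1, a2, ⟨e, he⟩, hA⟩ := M.link hθ
  obtain ⟨g, e', g1, g2, g3⟩ := M.exists_branch hθ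
  refine ⟨B.P, this, A, Subtype.val, fun z => xor (decide (z = g (qf B.c z))) (!(xor e e')),
    Subtype.val_injective, Subtype.range_coe, by rw [a1]; rfl, fun s => by rw [a2]; rfl,
    fun s => ?_, fun D hD n0 hb z hz w hw => ?_, ?_, fun t ht => hA _ (eval_quad B.c) hP t ht⟩
  · obtain ⟨j, rfl⟩ := A.hc s
    have e1 : (A.nx^[j] A.sg).1 = (qf B.c)^[j] B.c := by rw [a1, a2, BD.nxP_iter]
    rw [he]
    simp only [e1]
    rw [dec_Link (g3 j) (M.ne0 j)]
    cases kneading θ j <;> cases e <;> cases e' <;> rfl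
  · have u : ∀ x ∈ D, qf B.c x ∈ B.Uᶜ := fun x hx h => by
      obtain ⟨R, hR⟩ := hb x hx
      obtain ⟨n, hn⟩ := (BD.U_escape ((BD.mem_U_iff x 1).1 h) R).exists
      exact hn.not_ge (hR n)
    have q : ∀ x ∈ D, x ^ 2 = g (qf B.c x) ^ 2 := fun x hx => by
      rw [g2 _ (u x hx), qf]; ring
    have n : ∀ x ∈ D, x ≠ 0 := fun x hx e => n0 (e ▸ hx)
    obtain ⟨a, ha⟩ := exists_sg (q z hz)
    have k := sq_unique hD (u := fun x => sg a * g (qf B.c x)) (v := fun x => x)
      (continuousOn_const.mul (g1.comp (continuous_qf _).continuousOn u)) continuousOn_id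
      (fun x hx => by rw [mul_pow, sg_sq, one_mul, q x hx]) n hz ha.symm w hw
    simp only [dec_Link ha (n z hz), dec_Link k.symm (n w hw)]
  · rintro ⟨p, h1, h2⟩
    refine M.renorm hR hθ h1 (fun j hj => ?_) fun h => ?_
    · have := h2 j hj
      rw [he, he] at this
      simpa using this
    · obtain ⟨q, rfl⟩ : ∃ q, p = q + 1 := ⟨p - 1, by omega⟩
      have := A.hd (A.nx^[q + 1] A.sg) A.sg fun i => by
        rw [← Function.iterate_add_apply, he, he, h]
      rw [Function.iterate_succ_apply'] at this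
      exact A.ha _ this

end Pool.Agent.MP_61ef33_al.R
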