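import Pool.Agent.MP_61ef33_al.R.St

/- A group with a free subsemigroup does not have intermediate growth. -/

namespace Pool.Agent.MP_61ef33_al.R

open Filter

section
variable {G : Type} [Group G] {S : Finset G}

theorem mono_NotInt {m n : ℕ} (h : m ≤ n) {g : G} (hg : g ∈ ball S m) : g ∈ ball S n := by
  obtain ⟨l, h1, h2, h3⟩ := hg
  exact ⟨l, h1.trans h, h2, h3⟩

theorem mul_NotInt {m n : ℕ} {g g' : G} (hg : g ∈ ball S m) (hg' : g' ∈ ball S n) :
    g * g' ∈ ball S (m + n) := by
  obtain ⟨l, h1, h2, rfl⟩ := hg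
  obtain ⟨l', h1', h2', rfl⟩ := hg'
  refine ⟨l ++ l', by rw [List.length_append]; omega, fun x hx => ?_, List.prod_append⟩
  exact (List.mem_append.1 hx).elim (h2 x) (h2' x)

theorem inv_NotInt {m : ℕ} {g : G} (hg : g ∈ ball S m) : g⁻¹ ∈ ball S m := by
  obtain ⟨l, h1, h2, rfl⟩ := hg
  refine ⟨(l.map fun x => x⁻¹).reverse, by simpa using h1, fun x hx => ?_,
    (List.prod_inv_reverse l).symm⟩
  obtain ⟨y, hy, rfl⟩ := List.mem_map.1 (List.mem_reverse.1 hx)
  rw [inv_inv]
  exact (h2 y hy).symm

theorem ex_NotInt (hS : Subgroup.closure (S : Set G) = ⊤) (g : G) : ∃ m, g ∈ ball S m := by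
  have hg : g ∈ Subgroup.closure (S : Set G) := hS ▸ Subgroup.mem_top g
  induction hg using Subgroup.closure_induction with
  | mem s hs => exact ⟨1, [s], le_rfl, fun x hx => Or.inl (List.mem_singleton.1 hx ▸ hs), by simp⟩
  | one => exact ⟨0, [], le_rfl, by simp, rfl⟩
  | mul g g' _ _ h1 h2 =>
    obtain ⟨m, h1⟩ := h1
    obtain ⟨n, h2⟩ := h2
    exact ⟨_, mul_NotInt h1 h2⟩
  | inv g _ h1 =>
    obtain ⟨m, h1⟩ := h1
    exact ⟨_, inv_NotInt h1⟩

theorem fin_NotInt (S : Finset G) (n : ℕ) : (ball S n).Finite := by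
  induction n with
  | zero =>
    refine (Set.finite_singleton 1).subset ?_
    rintro g ⟨l, h1, -, rfl⟩
    rw [List.length_eq_zero_iff.1 (Nat.le_zero.1 h1)]
    rfl
  | succ n ih =>
    have hT : ((S : Set G) ∪ (S : Set G)⁻¹).Finite := S.finite_toSet.union S.finite_toSet.inv
    refine ((hT.image2 (· * ·) ih).insert 1).subset ?_
    rintro g ⟨l, h1, h2, rfl⟩
    cases l with
    | nil => exact Or.inl rfl
    | cons x l =>
      refine Or.inr ⟨x, h2 x List.mem_cons_self, l.prod,
        ⟨l, by simpa using h1, fun y hy => h2 y (List.mem_cons_of_mem _ hy), rfl⟩, ?_⟩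
      rw [List.prod_cons]

theorem word_NotInt {m : ℕ} {x y : G} (hx : x ∈ ball S m) (hy : y ∈ ball S m) (l : List Bool) :
    (l.map fun b => if b then x else y).prod ∈ ball S (m * l.length) := by
  induction l with
  | nil => exact ⟨[], by simp, by simp, rfl⟩
  | cons b l ih =>
    rw [List.map_cons, List.prod_cons, List.length_cons, Nat.mul_succ, add_comm]
    refine mul_NotInt ?_ ih
    cases b
    · exact hy
    · exact hx

end

theorem notInt_st : NotIntSt := by
  refine ⟨?_, ?_⟩
  · rintro G _ ⟨x, y, hf⟩ ⟨S, hS, -, h⟩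
    obtain ⟨m, hx⟩ := ex_NotInt hS x
    obtain ⟨m', hy⟩ := ex_NotInt hS y
    obtain ⟨M, hM⟩ : ∃ M, M = m + m' + 1 := ⟨_, rfl⟩
    replace hx := mono_NotInt (show m ≤ M by omega) hx
    replace hy := mono_NotInt (show m' ≤ M by omega) hy
    have M0 : 0 < M := by omega
    have M1 : (0 : ℝ) < M := by exact_mod_cast M0
    have k : ∀ n, 2 ^ n ≤ growth S (M * n) := fun n => by
      have := Set.ncard_le_ncard_of_injOn (s := (Set.univ : Set (Fin n → Bool)))
        (fun v => ((List.ofFn v).map fun b => if b then x else y).prod)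
        (fun v _ => by simpa only [List.length_ofFn] using word_NotInt hx hy (List.ofFn v))
        (fun v _ w _ e => List.ofFn_injective (hf e)) (fin_NotInt S (M * n))
      rwa [Set.ncard_univ, Nat.card_eq_fintype_card, Fintype.card_fun, Fintype.card_bool,
        Fintype.card_fin] at this
    have h1 := (h (Real.log 2 / M) (div_pos (Real.log_pos one_lt_two) M1)).comp
      (tendsto_id.const_mul_atTop' M0)
    obtain ⟨n, hn⟩ := (h1.eventually (gt_mem_nhds one_pos)).exists
    simp only [Function.comp, id] at hn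
    have e : Real.exp (Real.log 2 / M * ((M * n : ℕ) : ℝ)) = 2 ^ n := by
      rw [Nat.cast_mul, ← mul_assoc, div_mul_cancel₀ _ M1.ne', mul_comm, Real.exp_nat_mul,
        Real.exp_log two_pos]
    rw [e, div_lt_one (by positivity)] at hn
    exact absurd (by exact_mod_cast k n) (not_le.2 hn)
  · rintro G H _ _ e ⟨x, y, hf⟩
    refine ⟨e x, e y, fun l l' h => hf (e.injective ?_)⟩
    have k : ∀ l : List Bool, e (l.map fun b => if b then x else y).prod =
        (l.map fun b => if b then e x else e y).prod := fun l => by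
      rw [map_list_prod, List.map_map]
      congr 2
      funext b
      cases b <;> rfl
    exact (k l).trans (h.trans (k l').symm)

end Pool.Agent.MP_61ef33_al.R
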