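import Pool.Agent.MP_61ef33_al.R.St

/- Small Julia sets that meet outside the postcritical set give a free semigroup. -/

namespace Pool.Agent.MP_61ef33_al.R

open Polynomial Set Topology

theorem conn_Touch {Q : Set ℂ} (hQ : IsCompact Q) {G : ℂ → ℂ} (hG : Continuous G) (hi : InjOn G Q)
    (h : IsPreconnected (G '' Q)) : IsPreconnected Q := by
  have := isCompact_iff_compactSpace.1 hQ
  have h1 : IsClosedEmbedding fun z : Q => G z :=
    (hG.comp continuous_subtype_val).isClosedEmbedding fun z w e => Subtype.ext (hi z.2 w.2 e)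
  have h2 : (fun z : Q => G z) '' univ = G '' Q := by
    rw [image_univ, image_eq_range]
  rw [← h2, h1.isInducing.isPreconnected_image] at h
  exact isPreconnected_iff_preconnectedSpace.2 ⟨h⟩

/-- The small filled Julia set. -/
theorem small_Touch {c : ℂ} {q : ℕ} {U V : Set ℂ} (hU : IsDisc U) (hUV : closure U ⊆ V)
    (hm : MapsTo (qf c)^[q + 1] U V)
    (hp : ∀ C ⊆ V, IsCompact C → IsCompact (U ∩ (qf c)^[q + 1] ⁻¹' C))
    (hf : ∀ v ∈ V, ∃ z, U ∩ (qf c)^[q + 1] ⁻¹' {v} = {z, -z})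
    (h0 : ∀ k, ((qf c)^[q + 1])^[k] 0 ∈ U) :
    ∃ K : Set ℂ, IsPreconnected K ∧ ∀ z, z ∈ K ↔ ∀ k, ((qf c)^[q + 1])^[k] z ∈ U := by
  set F := (qf c)^[q + 1] with hF
  let C : ℕ → Set ℂ := fun k => Nat.rec (closure U) (fun _ S => U ∩ F ⁻¹' S) k
  have C1 : ∀ k, C (k + 1) = U ∩ F ⁻¹' C k := fun k => rfl
  have C2 : ∀ k, C k ⊆ V := fun k => by
    cases k with
    | zero => exact hUV
    | succ k => exact fun z hz => hUV (subset_closure hz.1)
  have C3 : ∀ k, IsCompact (C k) := fun k => by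
    induction k with
    | zero => exact hU.2.1.isCompact_closure
    | succ k ih => exact hp _ (C2 k) ih
  have C4 : ∀ k, C (k + 1) ⊆ C k := fun k => by
    induction k with
    | zero => exact fun z hz => subset_closure hz.1
    | succ k ih => exact fun z hz => ⟨hz.1, ih hz.2⟩
  have C5 : ∀ k z, (∀ j, F^[j] z ∈ U) → z ∈ C k := fun k => by
    induction k with
    | zero => exact fun z hz => subset_closure (hz 0)
    | succ k ih => exact fun z hz => ⟨hz 0, ih _ fun j => hz (j + 1)⟩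
  have C6 : ∀ k z, z ∈ C (k + 1) → F^[k] z ∈ U := fun k => by
    induction k with
    | zero => exact fun z hz => hz.1
    | succ k ih => exact fun z hz => ih _ hz.2
  have hG : ∀ z, F z = (qf c)^[q] (qf 0 z + c) := fun z => by
    rw [hF, Function.iterate_succ_apply, qf, qf, add_zero]
  have C7 : ∀ k, IsPreconnected (C k) := fun k => by
    induction k with
    | zero => exact hU.2.2.1.isPreconnected.closure
    | succ k ih =>
      have fib : ∀ z ∈ U, ∀ w ∈ U, F z = F w → qf 0 z = qf 0 w ∧ -z ∈ U := fun z hz w hw e => by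
        obtain ⟨a, ha⟩ := hf _ (hm hw)
        have h1 : z ∈ ({a, -a} : Set ℂ) := ha ▸ ⟨hz, e⟩
        have h2 : w ∈ ({a, -a} : Set ℂ) := ha ▸ ⟨hw, rfl⟩
        have h3 : -z ∈ ({a, -a} : Set ℂ) := by rcases h1 with rfl | rfl <;> simp
        refine ⟨?_, (ha.ge h3).1⟩
        rcases h1 with h1 | h1 <;> rcases h2 with h2 | h2 <;> rw [h1, h2] <;> simp [qf]
      have h1 : IsPreconnected (qf 0 '' C (k + 1)) := by
        refine conn_Touch ((C3 (k + 1)).image (continuous_qf 0)) (G := fun y => (qf c)^[q] (y + c))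
          (((continuous_qf c).iterate q).comp (continuous_add_const c)) ?_ ?_
        · rintro _ ⟨z, hz, rfl⟩ _ ⟨w, hw, rfl⟩ e
          exact (fib z hz.1 w hw.1 (by rw [hG, hG]; exact e)).1
        · convert ih using 1
          rw [image_image]
          refine Subset.antisymm ?_ fun v hv => ?_
          · rintro _ ⟨z, hz, rfl⟩
            exact (congrArg (· ∈ C k) (hG z)).mp hz.2
          · obtain ⟨a, ha⟩ := hf v (C2 k hv)
            have h1 := ha.ge (mem_insert a _)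
            have h2 : F a = v := h1.2
            exact ⟨a, ⟨h1.1, by rwa [mem_preimage, h2]⟩, (hG a).symm.trans h2⟩
      convert pre_conn_crit (c := 0) h1 ⟨0, C5 (k + 1) 0 h0, by simp [qf]⟩ using 1
      refine Subset.antisymm (subset_preimage_image _ _) ?_
      rintro z ⟨w, hw, e⟩
      have h2 : F z = F w := by rw [hG, hG, e]
      refine ⟨?_, by rw [mem_preimage, h2]; exact hw.2⟩
      rcases sq_eq_sq_iff_eq_or_eq_neg.1 (show z ^ 2 = w ^ 2 by simpa [qf] using e.symm) with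
        rfl | rfl
      exacts [hw.1, (fib w hw.1 w hw.1 rfl).2]
  exact ⟨⋂ k, C k, nested_conn (antitone_nat_of_succ_le C4) C3 C7, fun z =>
    ⟨fun h k => C6 k z (mem_iInter.1 h (k + 1)), fun h => mem_iInter.2 fun k => C5 k z h⟩⟩

theorem miss_Touch {c : ℂ} {p j : ℕ} {U V : Set ℂ} (hU : IsOpen U) (hm : MapsTo (qf c)^[p] U V)
    (hf : ∀ v ∈ V, ∃ z, U ∩ (qf c)^[p] ⁻¹' {v} = {z, -z}) (hj : j < p) {z : ℂ} (hz : z ∈ U)
    (h0 : z ≠ 0) : (qf c)^[j] z ≠ 0 := fun e => by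
  have h1 := (isOpenMap_iter c j _ (hU.inter (Metric.isOpen_ball (x := z) (ε := ‖z‖)))).mem_nhds
    ⟨z, ⟨hz, Metric.mem_ball_self (norm_pos_iff.2 h0)⟩, e⟩
  obtain ⟨ε, hε, h2⟩ := Metric.mem_nhds_iff.1 h1
  obtain ⟨w, hw, e1⟩ := h2 (show ((ε / 2 : ℝ) : ℂ) ∈ Metric.ball 0 ε by
    rw [mem_ball_zero_iff, Complex.norm_real, Real.norm_of_nonneg (by linarith)]; linarith)
  obtain ⟨w', hw', e2⟩ := h2 (show -((ε / 2 : ℝ) : ℂ) ∈ Metric.ball 0 ε by
    rw [mem_ball_zero_iff, norm_neg, Complex.norm_real, Real.norm_of_nonneg (by linarith)]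
    linarith)
  obtain ⟨i, rfl⟩ := Nat.exists_eq_add_of_lt hj
  have h3 : (qf c)^[j + i + 1] w' = (qf c)^[j + i + 1] w := by
    rw [show j + i + 1 = i + 1 + j by omega, Function.iterate_add_apply _ (i + 1),
      Function.iterate_add_apply _ (i + 1), e1, e2, Function.iterate_succ_apply,
      Function.iterate_succ_apply, qf, qf, neg_sq]
  obtain ⟨a, ha⟩ := hf _ (hm hw.1)
  have h4 : w ∈ ({a, -a} : Set ℂ) := ha ▸ ⟨hw.1, rfl⟩
  have h5 : w' ∈ ({a, -a} : Set ℂ) := ha ▸ ⟨hw'.1, h3⟩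
  have h6 : w' = w ∨ w' = -w := by
    rcases h4 with h4 | h4 <;> rcases h5 with h5 | h5 <;> rw [h4, h5] <;> simp
  rcases h6 with rfl | rfl
  · have h7 : ((ε / 2 : ℝ) : ℂ) = 0 := by linear_combination (e2 - e1) / 2
    exact absurd (Complex.ofReal_eq_zero.1 h7) (by linarith)
  · have h7 := mem_ball_iff_norm.1 hw.2
    have h8 := mem_ball_iff_norm.1 hw'.2
    have h9 := norm_add_le (w - z) (-w - z)
    rw [show w - z + (-w - z) = -2 * z by ring, norm_mul, norm_neg, Complex.norm_two] at h9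
    linarith

/-- The combinatorics of the two itineraries. -/
theorem comb_Touch {p m : ℕ} [NeZero p] {ν v : ℕ → Bool} (hm : ¬ p ∣ m)
    (h1 : ∀ j, ¬ p ∣ j → ν j = v j) (h2 : ∀ j, v (j + p) = v j) (h3 : ∀ j, v (j + m) = v j)
    {j n : ℕ} (hn : ¬ p ∣ n) (h4 : ∀ i, j ≤ i → ν (i + n) = ν i) :
    ∀ i, j ≤ i → ν (i + m) = ν i := by
  have a0 : ∀ i : ℕ, v (i : ZMod p).val = v i := fun i => by
    rw [ZMod.val_natCast]
    exact Function.Periodic.map_mod_nat h2 i
  have a1 : ∀ i : ZMod p, v (i + m).val = v i.val := fun i => by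
    rw [← h3 i.val, ← a0 (i.val + m), Nat.cast_add, ZMod.natCast_zmod_val]
  have a2 : ∀ i : ZMod p, i ≠ 0 → i + n ≠ 0 → v (i + n).val = v i.val := fun i i1 i2 => by
    have e1 : ((i.val + p * j : ℕ) : ZMod p) = i := by simp
    have e2 : ((i.val + p * j + n : ℕ) : ZMod p) = i + n := by rw [Nat.cast_add, e1]
    rw [← e2] at i2 ⊢
    rw [← e1] at i1
    rw [a0, ← h1 _ (mt (ZMod.natCast_eq_zero_iff _ _).2 i2),
      h4 _ (by nlinarith [NeZero.pos p]), h1 _ (mt (ZMod.natCast_eq_zero_iff _ _).2 i1), ← a0, e1]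
  have g0 : (m : ZMod p) ≠ 0 := mt (ZMod.natCast_eq_zero_iff _ _).1 hm
  have a3 : v (n : ZMod p).val = v (0 : ZMod p).val := by
    by_cases e : (n : ZMod p) = m
    · rw [e, ← a1 0, zero_add]
    · have := a2 (-m) (neg_ne_zero.2 g0) fun h => e (by linear_combination h)
      rw [← a1, ← a1 (-m)] at this
      simpa using this
  have a4 : ∀ i, j ≤ i → ν i = v i := fun i hi => by
    by_cases e : p ∣ i
    · rw [← h4 i hi, h1 _ (by rwa [Nat.dvd_add_right e]), ← a0, ← a0 i, Nat.cast_add,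
        (ZMod.natCast_eq_zero_iff _ _).2 e, zero_add, a3]
    · exact h1 i e
  exact fun i hi => by rw [a4 _ (by omega), a4 i hi, h3]

theorem touch_st (hL : LinkSt) (hF : FreeSt) (hN : NotIntSt) : TouchSt := by
  rintro c hfin h0 ⟨p, F, U, V, hp, rfl, hU, -, hUV, hm, hpr, hf, hc, x, m, hx, hpm, hxm, hP⟩ t ht
  obtain ⟨S, _, A, pt, cls, p1, p2, p3, p4, p5, p6, -, p7⟩ := hL c hfin h0
  obtain ⟨E⟩ := p7 t ht
  suffices h : FreePair A.G from ⟨hN.2 _ _ E.symm h, hN.1 _ (hN.2 _ _ E.symm h)⟩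
  change (qf c)^[m] x = x at hxm
  change ∀ s ∈ _, (qf c)^[m] s ≠ s at hP
  obtain ⟨q, rfl⟩ : ∃ q, p = q + 1 := ⟨p - 1, by omega⟩
  obtain ⟨K, K1, K2⟩ := small_Touch (c := c) hU hUV hm hpr hf hc
  have K3 : ∀ z ∈ K, ∀ n, ((qf c)^[q + 1])^[n / (q + 1)] z ∈ U ∧
      (qf c)^[n] z = (qf c)^[n % (q + 1)] (((qf c)^[q + 1])^[n / (q + 1)] z) := fun z hz n =>
    ⟨(K2 z).1 hz _, by rw [← Function.iterate_mul, ← Function.iterate_add_apply, Nat.mod_add_div]⟩
  have c0 : qf c 0 = c := by simp [qf]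
  obtain ⟨M, hM⟩ := isBounded_iff_forall_norm_le.1 ((finite_lt_nat (q + 1)).isCompact_biUnion
    fun i _ => hU.2.1.isCompact_closure.image ((continuous_qf c).iterate i)).isBounded
  have K4 : ∀ j, ¬ q + 1 ∣ j → ∀ z ∈ K, ∀ w ∈ K, cls ((qf c)^[j] z) = cls ((qf c)^[j] w) := by
    intro j hj z hz w hw
    refine p6 _ (K1.image _ ((continuous_qf c).iterate j).continuousOn) ?_ ?_ _ ⟨z, hz, rfl⟩ _
      ⟨w, hw, rfl⟩
    · rintro ⟨y, hy, e⟩
      obtain ⟨h1, h2⟩ := K3 y hy j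
      rw [h2] at e
      by_cases h3 : ((qf c)^[q + 1])^[j / (q + 1)] y = 0
      · obtain ⟨i, hi⟩ := Nat.exists_eq_succ_of_ne_zero (mt Nat.dvd_of_mod_eq_zero hj)
        rw [h3, hi, Function.iterate_succ_apply, c0] at e
        exact h0 (postcrit_quad c ▸ ⟨i, e⟩)
      · exact miss_Touch hU.1 hm hf (Nat.mod_lt _ q.succ_pos) h1 h3 e
    · rintro _ ⟨y, hy, rfl⟩
      refine ⟨M, fun n => hM _ ?_⟩
      rw [← Function.iterate_add_apply]
      exact mem_iUnion₂.2 ⟨_, Nat.mod_lt (n + j) q.succ_pos, _, subset_closure (K3 y hy _).1,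
        (K3 y hy _).2.symm⟩
  have xK : x ∈ K := (K2 x).2 hx
  let v : ℕ → Bool := fun j => cls ((qf c)^[j] x)
  let ν : ℕ → Bool := fun j => cls ((qf c)^[j] 0)
  have v1 : ∀ j, ¬ q + 1 ∣ j → ν j = v j := fun j hj => K4 j hj 0 ((K2 0).2 hc) x xK
  have v3 : ∀ j, v (j + m) = v j := fun j => by
    simp only [v, Function.iterate_add_apply, hxm]
  have v2 : ∀ j, v (j + (q + 1)) = v j := by
    have h : ∀ j, ¬ q + 1 ∣ j → v (j + (q + 1)) = v j := fun j hj => by
      simp only [v]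
      rw [Function.iterate_add_apply]
      exact K4 j hj _ ((K2 _).2 fun k => hx (k + 1)) x xK
    intro j
    by_cases hj : q + 1 ∣ j
    · rw [← v3, add_right_comm, h _ (by rwa [Nat.dvd_add_right hj]), v3]
    · exact h j hj
  have s1 : ∀ k s, pt (A.nx^[k] s) = (qf c)^[k] (pt s) := fun k s =>
    (Function.Semiconj.iterate_right p4 k) s
  have s2 : ∀ k, pt (A.nx^[k] A.sg) = (qf c)^[k + 1] 0 := fun k => by
    rw [s1, p3, Function.iterate_succ_apply, c0]
  have s3 : ∀ k, A.cl (A.nx^[k] A.sg) = ν (k + 1) := fun k => by rw [p5, s2]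
  have W0 : ∀ j n, A.nx^[j + n] A.sg = A.nx^[j] A.sg → q + 1 ∣ n := fun j n e => by
    by_contra hn
    have h1 := comb_Touch hpm v1 v2 v3 (j := j + 1) hn fun i hi => by
      obtain ⟨i, rfl⟩ := Nat.exists_eq_add_of_le' hi
      rw [show i + (j + 1) + n = i + (j + n) + 1 by omega, ← add_assoc i j 1, ← s3, ← s3,
        Function.iterate_add_apply, e, Function.iterate_add_apply]
    have h2 := A.hd (A.nx^[m + j] A.sg) (A.nx^[j] A.sg) fun i => by
      rw [← Function.iterate_add_apply, ← Function.iterate_add_apply, s3, s3,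
        ← h1 (i + j + 1) (by omega)]
      congr 1
      omega
    refine hP (pt (A.nx^[j] A.sg)) (p2 ▸ mem_range_self _) ?_
    rw [← s1, ← Function.iterate_add_apply, h2]
  have W : ∀ j k, A.nx^[j] A.sg = A.nx^[k] A.sg → (j : ZMod (q + 1)) = k := fun j k e => by
    rcases le_total j k with h | h
    · obtain ⟨n, rfl⟩ := Nat.exists_eq_add_of_le h
      rw [Nat.cast_add, (ZMod.natCast_eq_zero_iff _ _).2 (W0 j n e.symm), add_zero]
    · obtain ⟨n, rfl⟩ := Nat.exists_eq_add_of_le h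
      rw [Nat.cast_add, (ZMod.natCast_eq_zero_iff _ _).2 (W0 k n e), add_zero]
  choose κ hκ using A.hc
  have a0 : ∀ i : ℕ, v (i : ZMod (q + 1)).val = v i := fun i => by
    rw [ZMod.val_natCast]
    exact Function.Periodic.map_mod_nat v2 i
  refine hF S A (q + 1) m (fun s => κ s) (fun i => v (i + 1).val)
    (mt (ZMod.natCast_eq_zero_iff _ _).1 hpm) (by simpa using W _ 0 (hκ A.sg)) (fun s => ?_)
    (fun s hs => ?_) fun i => ?_
  · rw [W _ (κ s + 1) (by rw [hκ, Function.iterate_succ_apply', hκ]), Nat.cast_succ]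
  · have := s3 (κ s)
    rw [hκ] at this
    rw [this, v1 _ fun h => hs ?_, ← a0, Nat.cast_succ]
    have := (ZMod.natCast_eq_zero_iff _ _).2 h
    rw [Nat.cast_succ] at this
    exact eq_neg_of_add_eq_zero_left this
  · rw [← v3 (i + 1).val, ← a0 (_ + m), Nat.cast_add, ZMod.natCast_zmod_val, add_right_comm]

end Pool.Agent.MP_61ef33_al.R
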