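import Pool.Agent.MP_61ef33_al.R.Core
import Pool.Agent.MP_61ef33_al.R.Int3
import Pool.Agent.MP_61ef33_al.R.Free
import Pool.Agent.MP_61ef33_al.R.NotInt
import Pool.Agent.MP_61ef33_al.R.Link
import Pool.Agent.MP_61ef33_al.R.Touch
import Pool.Agent.MP_61ef33_al.R.Thresh

namespace Pool.Agent.MP_61ef33_al.R

theorem touch_all : TouchSt := touch_st link_st free_st notInt_st

theorem thresh_all : ThreshSt := thresh_st link_st free_st notInt_st (int3_st core_st)

end Pool.Agent.MP_61ef33_al.R
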