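import Pool.Agent.Mg.F61ef33.Gb1fd7e
import Pool.Agent.MP_61ef33_al.Defs4

/- Statements for the renormalizable cases. -/

namespace Pool.Agent.MP_61ef33_al.R

open Polynomial

/-- Tokens `(e, x)`: a gap bit `e` followed by a letter of class `x`. -/
abbrev Tk : Type := List (Bool × Bool)

/-- Excursions from the class `true` are dealt alternately; the classes are exchanged. -/
def chd : Option Bool → Tk → Tk
  | _, [] => []
  | none, (e, true) :: T => chd (some e) T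
  | none, (e, false) :: T => (e, true) :: chd none T
  | some h, (_, true) :: T => (h, false) :: chd none T
  | some h, (_, false) :: T => chd (some h) T

/-- Every complete excursion from the class `x` has an odd sum of gap bits; the state is the
parity since the last letter of class `x`. -/
def od (x : Bool) : Option Bool → Tk → Prop
  | _, [] => True
  | s, (e, z) :: T =>
    if z = x then (∀ π, s = some π → xor π e = true) ∧ od x (some false) T
    else od x (s.map fun π => xor π e) T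

/-- A family of paths (start class, tokens) closed under factors and children, with odd
excursions. -/
structure Sys (Γ : Bool → Tk → Prop) : Prop where
  tl : ∀ p t T, Γ p (t :: T) → Γ t.2 T
  pre : ∀ p T T', Γ p (T ++ T') → Γ p T
  odd : ∀ T, Γ true T → od true (some false) T
  c1 : ∀ T, Γ false T → Γ true (chd none T)
  c0 : ∀ T h t Y, Γ true T → chd (some h) T = t :: Y → Γ false Y

def CoreSt : Prop :=
  ∀ Γ : Bool → Tk → Prop, Sys Γ → Rate {x : Bool × Tk | Γ x.1 x.2} (fun x => x.2.length) 0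

def Int3St : Prop :=
  ∀ (S : Type) [Fintype S] (A : KA S), A.nx (A.nx (A.nx A.sg)) = A.nx (A.nx A.sg) →
    A.nx A.sg ≠ A.nx (A.nx A.sg) → A.cl A.sg = A.cl (A.nx (A.nx A.sg)) → IntermediateGrowth A.G

def FreeSt : Prop :=
  ∀ (S : Type) [Fintype S] (A : KA S) (p : ℕ) [NeZero p] (g : ZMod p) (κ : S → ZMod p)
    (u : ZMod p → Bool), g ≠ 0 → κ A.sg = 0 → (∀ s, κ (A.nx s) = κ s + 1) →
    (∀ s, κ s ≠ -1 → A.cl s = u (κ s)) → (∀ i, u (i + g) = u i) → FreePair A.G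

def NotIntSt : Prop :=
  (∀ (G : Type) [Group G], FreePair G → ¬ IntermediateGrowth G) ∧
    ∀ (G H : Type) [Group G] [Group H], (G ≃* H) → FreePair G → FreePair H

def LinkSt : Prop :=
  ∀ c : ℂ, (postcrit (X ^ 2 + C c)).Finite → (0 : ℂ) ∉ postcrit (X ^ 2 + C c) →
    ∃ (S : Type) (_ : Fintype S) (A : KA S) (pt : S → ℂ) (cls : ℂ → Bool),
      Function.Injective pt ∧ Set.range pt = postcrit (X ^ 2 + C c) ∧ pt A.sg = c ∧
      (∀ s, pt (A.nx s) = qf c (pt s)) ∧ (∀ s, A.cl s = cls (pt s)) ∧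
      (∀ D : Set ℂ, IsPreconnected D → (0 : ℂ) ∉ D → (∀ z ∈ D, ∃ M, ∀ n, ‖(qf c)^[n] z‖ ≤ M) →
        ∀ z ∈ D, ∀ w ∈ D, cls z = cls w) ∧
      (A.Star → Renormalizable c) ∧
      ∀ t ∉ postcrit (X ^ 2 + C c), Nonempty (IMG (X ^ 2 + C c) t ≃* A.G)

def TouchSt : Prop :=
  ∀ c : ℂ, (postcrit (X ^ 2 + C c)).Finite → (0 : ℂ) ∉ postcrit (X ^ 2 + C c) → Touching c →
    ∀ t ∉ postcrit (X ^ 2 + C c),
      FreePair (IMG (X ^ 2 + C c) t) ∧ ¬ IntermediateGrowth (IMG (X ^ 2 + C c) t)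

def ThreshSt : Prop :=
  (∀ c : ℝ, c ^ 3 + 2 * c ^ 2 + 2 * c + 2 = 0 →
    (postcrit (X ^ 2 + C (c : ℂ))).Finite ∧ (0 : ℂ) ∉ postcrit (X ^ 2 + C (c : ℂ)) ∧
      Renormalizable c ∧
      ∀ t ∉ postcrit (X ^ 2 + C (c : ℂ)), IntermediateGrowth (IMG (X ^ 2 + C (c : ℂ)) t)) ∧
  ∀ c : ℝ, 0 < c ^ 3 + 2 * c ^ 2 + 2 * c + 2 →
    (postcrit (X ^ 2 + C (c : ℂ))).Finite → (0 : ℂ) ∉ postcrit (X ^ 2 + C (c : ℂ)) →
      Renormalizable c ∧ ∀ t ∉ postcrit (X ^ 2 + C (c : ℂ)),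
        FreePair (IMG (X ^ 2 + C (c : ℂ)) t) ∧ ¬ IntermediateGrowth (IMG (X ^ 2 + C (c : ℂ)) t)

end Pool.Agent.MP_61ef33_al.R
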