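import Pool.Agent.MP_61ef33_al.R.CoreC

/- The paths of an odd system have growth rate zero. -/

namespace Pool.Agent.MP_61ef33_al.R

open List

theorem rate_surj {X Y : Type} [Nonempty Y] {s : Set X} {s' : Set Y} {f : X → ℕ} {f' : Y → ℕ}
    {t : ℝ} (h : Rate s' f' t) (ψ : Y → X) (hs : ∀ x ∈ s, ∃ y ∈ s', ψ y = x ∧ f' y ≤ f x) :
    Rate s f t := by
  choose! φ h1 h2 h3 using hs
  exact h.of_inj φ (fun x hx y hy e => by rw [← h2 x hx, ← h2 y hy, e])
    fun x hx => ⟨h1 x hx, h3 x hx⟩

theorem rate_nat : Rate (Set.univ : Set ℕ) id 0 := by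
  intro δ hδ
  have e : ∀ n, cnt (Set.univ : Set ℕ) id n = (Finset.range (n + 1) : Set ℕ) := fun n => by
    ext m
    simp [cnt]
  refine ⟨1 + 1 / δ, fun n => ?_⟩
  rw [e, Set.ncard_coe_finset, Finset.card_range, zero_add]
  exact ⟨Finset.finite_toSet _, by exact_mod_cast succ_le_exp hδ n⟩

variable {Γ : Bool → Tk → Prop}

theorem Sys2.dec (S : Sys2 Γ) : ∀ (T : Tk) (p : Bool), Γ p T →
    ∃ m R, T = replicate m (true, p) ++ ex p R
  | [], _, _ => ⟨0, [], rfl⟩
  | (e, z) :: T, p, h => by
    obtain ⟨m, R, rfl⟩ := S.dec T z (S.tl _ _ _ h)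
    by_cases c : z = p
    · subst c
      have h1 := S.odp h
      simp only [od, if_true] at h1
      have h2 : e = true := by simpa using h1.1 false rfl
      exact ⟨m + 1, R, by rw [h2]; rfl⟩
    · obtain rfl : z = !p := by revert c; cases z <;> cases p <;> simp
      exact ⟨0, (e, m) :: R, rfl⟩

theorem rate_star (S : Sys2 Γ) (h0 : Γ false []) :
    Rate {x : Bool × Tk | Γ x.1 x.2} (fun x => x.2.length) 0 := by
  refine rate_surj (((rate_finite (K := Bool × Option Bool) le_rfl).pair
    (rate_nat.pair rate_nat)).pair (rate_runs S))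
    (fun y => (y.1.1.1, replicate y.1.2.1 (true, y.1.1.1) ++
      ex y.1.1.1 ((y.1.1.2.map fun e => (e, y.1.2.2)).toList ++ y.2))) ?_
  rintro ⟨p, T⟩ h
  obtain ⟨m, R, rfl⟩ := S.dec T p h
  have h1 : Γ p (ex p R) := S.toSys.rep m h
  cases p with
  | false =>
    exact ⟨(((false, none), m, 0), R), ⟨by simp, h1⟩, rfl, by simp [ex_length]⟩
  | true =>
    cases R with
    | nil => exact ⟨(((true, none), m, 0), []), ⟨by simp, h0⟩, rfl, by simp [ex_length]⟩
    | cons r R =>
      exact ⟨(((true, some r.1), m, r.2), R), ⟨by simp, S.toSys.ex_tl h1⟩, rfl, by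
        simp only [id, length_append, length_replicate, ex_length, mR_cons]; omega⟩

/-- The two children, every token being given to one of them. -/
def eg : Bool → Tk → Tk
  | _, [] => []
  | true, (e, true) :: T => (e, false) :: eg false T
  | true, (e, false) :: T => (e, true) :: eg true T
  | false, (_, true) :: T => eg true T
  | false, (_, false) :: T => eg false T

theorem eg_length : ∀ T : Tk, (eg true T).length + (eg false T).length = T.length
  | [] => rfl
  | (_, true) :: T => by have := eg_length T; simp only [eg, length_cons]; omega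
  | (_, false) :: T => by have := eg_length T; simp only [eg, length_cons]; omega

theorem eg_inj : ∀ T T' : Tk, eg true T = eg true T' → eg false T = eg false T' → T = T'
  | [], [], _, _ => rfl
  | [], (_, true) :: _, h, _ => by simp [eg] at h
  | [], (_, false) :: _, h, _ => by simp [eg] at h
  | (_, true) :: _, [], h, _ => by simp [eg] at h
  | (_, false) :: _, [], h, _ => by simp [eg] at h
  | (_, true) :: _, (_, false) :: _, h, _ => by simp [eg] at h
  | (_, false) :: _, (_, true) :: _, h, _ => by simp [eg] at h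
  | (_, true) :: T, (_, true) :: T', h, h' => by
    simp only [eg, cons.injEq, Prod.mk.injEq, and_true] at h h'
    rw [h.1, eg_inj T T' h' h.2]
  | (_, false) :: T, (_, false) :: T', h, h' => by
    simp only [eg, cons.injEq, Prod.mk.injEq, and_true] at h h'
    rw [h.1, eg_inj T T' h.2 h']

theorem eg_chd : ∀ T : Tk, (∃ o : Option (Bool × Bool), eg true T = chd none T ++ o.toList) ∧
    ∀ h, ∃ o : Option (Bool × Bool), (h, false) :: eg false T = chd (some h) T ++ o.toList
  | [] => ⟨⟨none, rfl⟩, fun h => ⟨some (h, false), rfl⟩⟩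
  | (e, true) :: T => by
    obtain ⟨⟨o, h1⟩, h2⟩ := eg_chd T
    exact ⟨h2 e, fun h => ⟨o, by simp only [eg, chd, h1, cons_append]⟩⟩
  | (e, false) :: T => by
    obtain ⟨⟨o, h1⟩, h2⟩ := eg_chd T
    exact ⟨⟨o, by simp only [eg, chd, h1, cons_append]⟩, h2⟩

/-- Paths of the smaller system with one more token allowed at each end. -/
def Ext (Γ : Bool → Tk → Prop) : Set Tk :=
  {Y | ∃ (o o' : Option (Bool × Bool)) (p : Bool) (Z : Tk), star Γ p Z ∧
    Y = o.toList ++ Z ++ o'.toList}

theorem Sys.ext1 (S : Sys Γ) (h0 : Γ false []) {p : Bool} {T : Tk} (h : Γ p T)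
    (o : Option (Bool × Bool)) : chd none T ++ o.toList ∈ Ext Γ := by
  cases hY : chd none T with
  | nil => exact ⟨none, o, false, [], ⟨h0, trivial⟩, rfl⟩
  | cons t Y =>
    have h1 := (od_chd T).1 _ (S.odn T _ h)
    rw [hY] at h1
    exact ⟨some t, o, t.2, Y, ⟨S.c1' h hY, od_tl h1⟩, rfl⟩

theorem Sys.ext (S : Sys Γ) (h0 : Γ false []) {p : Bool} {T : Tk} (h : Γ p T) :
    eg true T ∈ Ext Γ ∧ eg false T ∈ Ext Γ := by
  obtain ⟨⟨o, h1⟩, h2⟩ := eg_chd T
  refine ⟨h1 ▸ S.ext1 h0 h o, ?_⟩
  obtain ⟨o', h2⟩ := h2 false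
  cases hY : chd (some false) T with
  | nil =>
    rw [hY] at h2
    have : eg false T = [] := by
      cases o' with
      | none => simp at h2
      | some t => exact (cons.inj h2).2
    exact this ▸ ⟨none, none, false, [], ⟨h0, trivial⟩, rfl⟩
  | cons t Y =>
    obtain ⟨-, T', g, rfl⟩ := S.c0' T _ h hY
    rw [hY] at h2
    rw [(cons.inj h2).2]
    exact S.ext1 h0 g o'

theorem rate_sys (S : Sys Γ) (h0 : Γ false []) :
    Rate {x : Bool × Tk | Γ x.1 x.2} (fun x => x.2.length) 0 := by
  have h1 : Rate (Ext Γ) length 0 := by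
    refine rate_surj ((rate_finite (K := Option (Bool × Bool) × Option (Bool × Bool)) le_rfl).pair
      (rate_star S.toStar ⟨h0, trivial⟩)) (fun y => y.1.1.toList ++ y.2.2 ++ y.1.2.toList) ?_
    rintro _ ⟨o, o', p, Z, h, rfl⟩
    exact ⟨((o, o'), p, Z), ⟨trivial, h⟩, rfl, by simp only [length_append]; omega⟩
  refine ((rate_finite (K := Bool) le_rfl).pair (h1.pair h1)).of_inj
    (fun x => (x.1, eg true x.2, eg false x.2)) (fun x _ y _ e => ?_) fun x h => ⟨⟨trivial,
      S.ext h0 h⟩, by simp only [eg_length, zero_add, le_refl]⟩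
  simp only [Prod.mk.injEq] at e
  exact Prod.ext e.1 (eg_inj _ _ e.2.1 e.2.2)

theorem core_st : CoreSt := by
  intro Γ S
  have S' : Sys fun p T => Γ p T ∨ T = [] := by
    refine ⟨fun p t T h => ?_, fun p T T' h => ?_, fun T h => ?_, fun T h => ?_,
      fun T h t Y g e => ?_⟩
    · exact h.elim (fun h => Or.inl (S.tl _ _ _ h)) fun h => absurd h (cons_ne_nil _ _)
    · exact h.imp (S.pre _ _ _) fun h => (append_eq_nil_iff.1 h).1
    · rcases h with h | rfl
      exacts [S.odd T h, trivial]
    · rcases h with h | rfl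
      exacts [Or.inl (S.c1 T h), Or.inr rfl]
    · rcases g with g | rfl
      · exact Or.inl (S.c0 T h t Y g e)
      · simp [chd] at e
  exact (rate_sys S' (Or.inr rfl)).subset fun x h => Or.inl h

end Pool.Agent.MP_61ef33_al.R
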