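import Pool.Agent.MP_61ef33_al.R.St

/- Even runs of bounded length are bounded in number. -/

namespace Pool.Agent.MP_61ef33_al.R

open List

theorem od_none (x : Bool) : ∀ (T : Tk) (s : Option Bool), od x s T → od x none T
  | [], _, _ => trivial
  | (e, z) :: T, s, h => by
    by_cases c : z = x
    · simp only [od, if_pos c] at h ⊢
      exact ⟨by simp, h.2⟩
    · simp only [od, if_neg c] at h ⊢
      exact od_none x T _ h

theorem od_pre (x : Bool) : ∀ (T T' : Tk) (s : Option Bool), od x s (T ++ T') → od x s T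
  | [], _, _, _ => trivial
  | (e, z) :: T, T', s, h => by
    by_cases c : z = x
    · simp only [cons_append, od, if_pos c] at h ⊢
      exact ⟨h.1, od_pre x T T' _ h.2⟩
    · simp only [cons_append, od, if_neg c] at h ⊢
      exact od_pre x T T' _ h

theorem od_tl {s : Option Bool} {t : Bool × Bool} {T : Tk} (h : od false s (t :: T)) :
    od false (if t.2 then none else some false) T := by
  obtain ⟨e, z⟩ := t
  cases z
  · simp only [od, if_true] at h
    simpa using h.2
  · simp only [od] at h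
    simpa using od_none _ _ _ h

theorem od_chd : ∀ T : Tk, (∀ s, od true s T → od false s (chd none T)) ∧
    ∀ s h s', od true s' T → (∀ π, s = some π → xor π h = true) → od false s (chd (some h) T)
  | [] => ⟨fun _ _ => trivial, fun _ _ _ _ _ => trivial⟩
  | (e, true) :: T => by
    refine ⟨fun s h => ?_, fun s h s' h1 h2 => ?_⟩
    · simp only [od, if_true] at h
      exact (od_chd T).2 s e _ h.2 h.1
    · simp only [od, if_true] at h1
      simp only [chd, od, if_true]
      exact ⟨h2, (od_chd T).1 _ h1.2⟩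
  | (e, false) :: T => by
    refine ⟨fun s h => ?_, fun s h s' h1 h2 => ?_⟩
    · simp only [od] at h
      simp only [chd, od]
      exact (od_chd T).1 _ h
    · simp only [od] at h1
      exact (od_chd T).2 s h _ h1 h2

theorem od_rep (x : Bool) (e : Bool) (R : Tk) : ∀ (m : ℕ) (π : Bool),
    od x (some π) (replicate m (true, !x) ++ (e, x) :: R) → (π.toNat + m + e.toNat) % 2 = 1
  | 0, π, h => by
    simp only [replicate_zero, nil_append, od, if_true] at h
    have := h.1 π rfl
    revert this
    cases π <;> cases e <;> simp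
  | m + 1, π, h => by
    simp only [replicate_succ, cons_append, od, Bool.not_eq_self, if_false, Option.map_some] at h
    have := od_rep x e R m _ h
    revert this
    cases π <;> simp <;> omega

variable {Γ : Bool → Tk → Prop}

theorem Sys.odn (S : Sys Γ) : ∀ (T : Tk) (p : Bool), Γ p T → od true none T
  | [], _, _ => trivial
  | (e, true) :: T, p, h => by
    simp only [od, if_true]
    exact ⟨by simp, S.odd T (S.tl _ _ _ h)⟩
  | (e, false) :: T, p, h => by
    simp only [od]
    exact S.odn T _ (S.tl _ _ _ h)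

theorem Sys.suf (S : Sys Γ) {t : Bool × Bool} {V : Tk} :
    ∀ (U : Tk) (p : Bool), Γ p (U ++ t :: V) → Γ t.2 V
  | [], _, h => S.tl _ _ _ h
  | _ :: U, _, h => S.suf U _ (S.tl _ _ _ h)

theorem Sys.c0' (S : Sys Γ) {h : Bool} {t : Bool × Bool} {Y : Tk} : ∀ (T : Tk) (p : Bool),
    Γ p T → chd (some h) T = t :: Y → t = (h, false) ∧ ∃ T', Γ true T' ∧ Y = chd none T'
  | [], _, _, e => by simp [chd] at e
  | (_, true) :: T, _, g, e => by
    simp only [chd, cons.injEq] at e
    exact ⟨e.1.symm, T, S.tl _ _ _ g, e.2.symm⟩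
  | (_, false) :: T, _, g, e => S.c0' T _ (S.tl _ _ _ g) e

theorem Sys.c1' (S : Sys Γ) {p : Bool} {T : Tk} {t : Bool × Bool} {Y : Tk} (g : Γ p T)
    (e : chd none T = t :: Y) : Γ t.2 Y := by
  cases p
  · exact S.tl true _ _ (e ▸ S.c1 T g)
  · match T, g, e with
    | [], _, e => simp [chd] at e
    | (_, false) :: T, g, e =>
      simp only [chd, cons.injEq] at e
      rw [← e.1, ← e.2]
      exact S.c1 T (S.tl _ _ _ g)
    | (_, true) :: T, g, e =>
      have g' := S.tl _ _ _ g
      rw [(S.c0' T _ g' e).1]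
      exact S.c0 T _ _ _ g' e

/-- Both kinds of excursions are odd. -/
structure Sys2 (Γ : Bool → Tk → Prop) : Prop extends Sys Γ where
  odb : ∀ T, Γ false T → od false (some false) T

def star (Γ : Bool → Tk → Prop) (p : Bool) (T : Tk) : Prop :=
  Γ p T ∧ od false (if p then none else some false) T

theorem Sys.toStar (S : Sys Γ) : Sys2 (star Γ) where
  tl p t T h := ⟨S.tl _ _ _ h.1, od_tl h.2⟩
  pre p T T' h := ⟨S.pre _ _ _ h.1, od_pre _ _ _ _ h.2⟩
  odd T h := S.odd T h.1
  c1 T h := ⟨S.c1 T h.1, (od_chd T).1 _ (S.odn T _ h.1)⟩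
  c0 T h t Y g e := by
    refine ⟨S.c0 T h t Y g.1 e, ?_⟩
    have h1 := (od_chd T).2 none h _ (S.odd T g.1) (by simp)
    rw [e] at h1
    have h2 := od_tl h1
    rwa [(S.c0' T _ g.1 e).1] at h2
  odb T h := h.2

theorem Sys2.odp (S : Sys2 Γ) {p : Bool} {T : Tk} (h : Γ p T) : od p (some false) T := by
  cases p
  · exact S.odb T h
  · exact S.odd T h

/-- `k` complete even runs of class `x` and length at most `L` with equal end bits. -/
inductive Cfg (x : Bool) (L : ℕ) : ℕ → Bool → Tk → Prop
  | zero (p : Bool) (T : Tk) : Cfg x L 0 p T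
  | skip {k : ℕ} (p e : Bool) {z : Bool} {T : Tk} : Cfg x L k z T → Cfg x L k p ((e, z) :: T)
  | hit {k : ℕ} (e : Bool) (m : ℕ) {V : Tk} : 2 * m + 2 ≤ L → Cfg x L k (!x) V →
      Cfg x L (k + 1) (!x) ((e, x) :: (replicate (2 * m + 1) (true, x) ++ (e, !x) :: V))

variable {x : Bool} {L k : ℕ}

theorem Cfg.app {z e : Bool} {T : Tk} (h : Cfg x L k z T) :
    ∀ (U : Tk) (p : Bool), Cfg x L k p (U ++ (e, z) :: T)
  | [], p => h.skip p e
  | (e', z') :: U, p => (h.app U z').skip p e'

theorem Cfg.rep {z : Bool} {T : Tk} (h : Cfg x L k z T) :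
    ∀ n, Cfg x L k z (replicate n (true, z) ++ T)
  | 0 => h
  | n + 1 => (h.rep n).skip z true

theorem Cfg.inv1 {p : Bool} {t : Bool × Bool} {T : Tk} (h : Cfg x L k p (t :: T)) :
    ∃ k', k ≤ k' + 1 ∧ Cfg x L k' t.2 T := by
  generalize hY : t :: T = Y at h
  cases h with
  | zero => exact ⟨0, by omega, Cfg.zero _ _⟩
  | skip _ e h =>
    obtain ⟨rfl, rfl⟩ := cons.inj hY
    exact ⟨_, by omega, h⟩
  | hit e m _ h =>
    obtain ⟨rfl, rfl⟩ := cons.inj hY
    exact ⟨_, le_rfl, h.app _ _⟩

theorem Cfg.inv0 {p e : Bool} {T : Tk} (h : Cfg x L k p ((e, !x) :: T)) : Cfg x L k (!x) T := by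
  generalize hY : (e, !x) :: T = Y at h
  cases h with
  | zero => exact Cfg.zero _ _
  | skip _ e h =>
    obtain ⟨h1, rfl⟩ := cons.inj hY
    obtain ⟨-, rfl⟩ := Prod.mk.inj h1
    exact h
  | hit e m _ h =>
    have := (Prod.mk.inj (cons.inj hY).1).2
    simp at this

theorem Cfg.nil {p : Bool} (h : Cfg x L k p []) : k = 0 := by
  generalize hY : ([] : Tk) = Y at h
  cases h with
  | zero => rfl
  | skip => simp at hY
  | hit => simp at hY

theorem Cfg.small {p : Bool} {T : Tk} (h : Cfg x L k p T) (hL : L ≤ 1) : k = 0 := by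
  induction h with
  | zero => rfl
  | skip _ _ _ ih => exact ih
  | hit => omega

theorem chd_aa (R : Tk) : ∀ j, chd none (replicate (2 * j) (true, true) ++ R) =
    replicate j (true, false) ++ chd none R
  | 0 => rfl
  | j + 1 => by
    rw [show 2 * (j + 1) = 2 * j + 1 + 1 by ring]
    simp only [replicate_succ, cons_append, chd, chd_aa R j]

theorem chd_b0 (h : Bool) (R : Tk) : ∀ n, chd (some h) (replicate n (true, false) ++ R) =
    chd (some h) R
  | 0 => rfl
  | n + 1 => by simp only [replicate_succ, cons_append, chd, chd_b0 h R n]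

theorem chd_b1 (R : Tk) : ∀ n, chd none (replicate n (true, false) ++ R) =
    replicate n (true, true) ++ chd none R
  | 0 => rfl
  | n + 1 => by simp only [replicate_succ, cons_append, chd, chd_b1 R n]

theorem trA (S : Sys Γ) {L' : ℕ} (hL : L' ≤ 2 * L + 1) {p : Bool} {T : Tk}
    (c : Cfg true L' k p T) : Γ p T → ∀ h q, ∃ k1 k0, k ≤ k1 + k0 ∧
      Cfg false L k1 (!p) (chd none T) ∧ Cfg false L k0 q (chd (some h) T) := by
  induction c with
  | zero => exact fun _ _ _ => ⟨0, 0, le_rfl, Cfg.zero _ _, Cfg.zero _ _⟩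
  | @skip k p e z T _ ih =>
    intro g h q
    cases z
    · obtain ⟨k1, k0, a, b, c⟩ := ih (S.tl _ _ _ g) h q
      exact ⟨k1, k0, a, b.skip _ _, c⟩
    · obtain ⟨k1, k0, a, b, c⟩ := ih (S.tl _ _ _ g) e (!p)
      exact ⟨k0, k1, by omega, c, b.skip _ _⟩
  | @hit k e m V hm _ ih =>
    intro g h q
    obtain ⟨k1, k0, a, b, c⟩ := ih (S.suf (_ :: _) _ g) true false
    have e1 : chd none ((e, true) :: (replicate (2 * m + 1) (true, true) ++ (e, !true) :: V)) =
        (e, false) :: (replicate m (true, false) ++ (e, true) :: chd none V) := by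
      simp only [replicate_succ, cons_append, chd, chd_aa, Bool.not_true]
    have e0 : chd (some h) ((e, true) :: (replicate (2 * m + 1) (true, true) ++ (e, !true) :: V)) =
        (h, false) :: (replicate m (true, false) ++ chd (some true) V) := by
      simp only [replicate_succ', append_assoc, cons_append, nil_append, chd, chd_aa,
        Bool.not_true]
    have h1 := S.odd _ (S.c1 _ g)
    rw [e1] at h1
    simp only [od, Bool.false_eq_true, if_false, Option.map_some] at h1
    have h2 := od_rep true e _ m _ h1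
    obtain ⟨m', rfl⟩ : ∃ m', m = 2 * m' + 1 := ⟨m / 2, by revert h2; cases e <;> simp <;> omega⟩
    rw [e1, e0]
    exact ⟨k1 + 1, k0, by omega, Cfg.hit e m' (by omega) b, (c.rep _).skip _ _⟩

theorem Cfg.chd_nil {p : Bool} {T : Tk} (c : Cfg false L k p T) :
    ∀ h, chd (some h) T = [] → k = 0 := by
  induction c with
  | zero => exact fun _ _ => rfl
  | @skip k p e z T _ ih =>
    intro h e1
    cases z
    · exact ih h e1
    · simp [chd] at e1
  | hit e m =>
    intro h e1
    simp [chd, chd_b0] at e1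

theorem chd_head {h : Bool} {t : Bool × Bool} {Y : Tk} :
    ∀ T : Tk, chd (some h) T = t :: Y → t = (h, false)
  | [], e => by simp [chd] at e
  | (_, true) :: T, e => (cons.inj e).1.symm
  | (_, false) :: T, e => chd_head T e

theorem trB {p : Bool} {T : Tk} (c : Cfg false L k p T) : ∀ h q, ∃ k1 k0, k ≤ k1 + k0 + 1 ∧
    Cfg true L k1 (!p) (chd none T) ∧ Cfg true L k0 q (chd (some h) T) := by
  induction c with
  | zero => exact fun _ _ => ⟨0, 0, by omega, Cfg.zero _ _, Cfg.zero _ _⟩
  | @skip k p e z T _ ih =>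
    intro h q
    cases z
    · obtain ⟨k1, k0, a, b, c⟩ := ih h q
      exact ⟨k1, k0, a, b.skip _ _, c⟩
    · obtain ⟨k1, k0, a, b, c⟩ := ih e (!p)
      exact ⟨k0, k1, by omega, c, b.skip _ _⟩
  | @hit k e m V hm c0 ih =>
    intro h q
    obtain ⟨k1, k0, a, b, c⟩ := ih e false
    cases hY : chd (some e) V with
    | nil => exact ⟨0, 0, by have := c0.chd_nil e hY; omega, Cfg.zero _ _, Cfg.zero _ _⟩
    | cons t Y =>
      obtain rfl := chd_head V hY
      rw [hY] at c
      refine ⟨k0 + 1, k1, by omega, ?_, ?_⟩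
      · simp only [chd, chd_b1, Bool.not_false, hY]
        exact Cfg.hit (x := true) e m hm (Cfg.inv0 (x := true) c)
      · simp only [chd, chd_b0, Bool.not_false]
        exact b.skip _ _

def Bnd (Γ : Bool → Tk → Prop) (x : Bool) (L K : ℕ) : Prop :=
  ∀ k p T, Γ p T → Cfg x L k p T → k ≤ K

theorem Bnd.one (S : Sys Γ) {K : ℕ} (B : Bnd Γ x L K) {p q : Bool} {T : Tk} (g : Γ p T)
    (c : Cfg x L k q (chd none T)) : k ≤ K + 1 := by
  cases hY : chd none T with
  | nil => rw [hY] at c; have := c.nil; omega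
  | cons t Y =>
    rw [hY] at c
    obtain ⟨k', a, b⟩ := c.inv1
    have := B _ _ _ (S.c1' g hY) b
    omega

theorem Bnd.two (S : Sys Γ) {K : ℕ} (B : Bnd Γ x L K) {p q h : Bool} {T : Tk} (g : Γ p T)
    (c : Cfg x L k q (chd (some h) T)) : k ≤ K + 2 := by
  cases hY : chd (some h) T with
  | nil => rw [hY] at c; have := c.nil; omega
  | cons t Y =>
    rw [hY] at c
    obtain ⟨k', a, b⟩ := c.inv1
    obtain ⟨-, T', g', rfl⟩ := S.c0' T _ g hY
    have := B.one S g' b
    omega

theorem exists_bnd (S : Sys Γ) (L : ℕ) : ∃ K, Bnd Γ true L K := by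
  induction L using Nat.strong_induction_on with
  | _ L ih =>
    by_cases h : L ≤ 1
    · exact ⟨0, fun k p T _ c => (c.small h).le⟩
    · obtain ⟨K, B⟩ := ih (L / 2) (by omega)
      have B' : Bnd Γ false (L / 2) (2 * K + 4) := fun k p T g c => by
        obtain ⟨k1, k0, a, b, c⟩ := trB c false false
        have := B.one S g b
        have := B.two S g c
        omega
      refine ⟨2 * (2 * K + 4) + 3, fun k p T g c => ?_⟩
      obtain ⟨k1, k0, a, b, c⟩ := trA S (L := L / 2) (by omega) c g false false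
      have := B'.one S g b
      have := B'.two S g c
      omega

end Pool.Agent.MP_61ef33_al.R
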