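import Pool.Agent.MP_61ef33_al.R.CoreA

/- Run lengths: few even runs, two-adic determinism of regular windows, few irregular windows. -/

namespace Pool.Agent.MP_61ef33_al.R

open List

/-- Tokens of a list of runs (first bit, number of further letters) after a letter `p`. -/
def ex : Bool → List (Bool × ℕ) → Tk
  | _, [] => []
  | p, r :: R => (r.1, !p) :: (replicate r.2 (true, !p) ++ ex (!p) R)

def ls {α : Type} (g : ℕ → α) : ℕ → List α
  | 0 => []
  | N + 1 => g 0 :: ls (fun i => g (i + 1)) N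

def sh {α : Type} (g : ℕ → α) (s : ℕ) : ℕ → α := fun i => g (s + i)

def V (Γ : Bool → Tk → Prop) (p : Bool) (g : ℕ → Bool × ℕ) (N : ℕ) : Prop := Γ p (ex p (ls g N))

variable {Γ : Bool → Tk → Prop}

theorem Sys.rep (S : Sys Γ) {p : Bool} {X : Tk} :
    ∀ m, Γ p (replicate m (true, p) ++ X) → Γ p X
  | 0, h => h
  | m + 1, h => S.rep m (S.tl _ _ _ h)

theorem Sys.ex_tl (S : Sys Γ) {p : Bool} {r : Bool × ℕ} {R : List (Bool × ℕ)}
    (h : Γ p (ex p (r :: R))) : Γ (!p) (ex (!p) R) := S.rep _ (S.tl _ _ _ h)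

theorem V.tl (S : Sys Γ) {p : Bool} {g : ℕ → Bool × ℕ} {N : ℕ} (h : V Γ p g (N + 1)) :
    V Γ (!p) (fun i => g (i + 1)) N := S.ex_tl h

theorem ex_pre (M : ℕ) : ∀ (N : ℕ) (p : Bool) (g : ℕ → Bool × ℕ),
    ∃ Z, ex p (ls g (N + M)) = ex p (ls g N) ++ Z
  | 0, _, _ => ⟨_, rfl⟩
  | N + 1, p, g => by
    obtain ⟨Z, h⟩ := ex_pre M N (!p) (fun i => g (i + 1))
    refine ⟨Z, ?_⟩
    rw [show N + 1 + M = N + M + 1 by ring]
    simp only [ls, ex, h, cons_append, append_assoc]

theorem V.mono (S : Sys Γ) {p : Bool} {g : ℕ → Bool × ℕ} {N N' : ℕ} (h : V Γ p g N)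
    (hN : N' ≤ N) : V Γ p g N' := by
  obtain ⟨M, rfl⟩ := Nat.exists_eq_add_of_le hN
  obtain ⟨Z, e⟩ := ex_pre M N' p g
  exact S.pre _ _ Z (e ▸ h)

theorem V.shift (S : Sys Γ) {p : Bool} {N : ℕ} : ∀ (j : ℕ) (g : ℕ → Bool × ℕ),
    V Γ p g (2 * j + N) → V Γ p (sh g (2 * j)) N
  | 0, g, h => by
    have e : sh g (2 * 0) = g := funext fun i => by simp [sh]
    rw [e]
    simpa using h
  | j + 1, g, h => by
    rw [show 2 * (j + 1) + N = 2 * j + N + 1 + 1 by ring] at h
    have h1 := (h.tl S).tl S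
    rw [Bool.not_not] at h1
    have h2 := V.shift S j _ h1
    have e : sh g (2 * (j + 1)) = sh (fun i => g (i + 1 + 1)) (2 * j) :=
      funext fun i => by simp only [sh]; congr 1; ring
    rwa [e]

theorem V.bit (S : Sys2 Γ) {p : Bool} {g : ℕ → Bool × ℕ} {N : ℕ} (h : V Γ p g (N + 2)) :
    ((g 0).1.toNat + (g 0).2 + (g 1).1.toNat) % 2 = 1 := by
  have h1 := S.odp h
  simp only [ls, ex, od, Bool.not_eq_self, if_false, Option.map_some, Bool.not_not,
    Bool.false_xor] at h1
  exact od_rep p _ _ _ _ h1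

theorem V.bits (S : Sys2 Γ) : ∀ (i : ℕ) {p : Bool} {g : ℕ → Bool × ℕ} {N : ℕ}, V Γ p g N →
    i + 1 < N → ((g i).1.toNat + (g i).2 + (g (i + 1)).1.toNat) % 2 = 1
  | 0, _, _, N, h, hN => by
    obtain ⟨N, rfl⟩ : ∃ M, N = M + 2 := ⟨N - 2, by omega⟩
    exact h.bit S
  | i + 1, _, _, N, h, hN => by
    obtain ⟨N, rfl⟩ : ∃ M, N = M + 1 := ⟨N - 1, by omega⟩
    exact V.bits S i (h.tl S.toSys) (by omega)

def mass (g : ℕ → Bool × ℕ) (N : ℕ) : ℕ := ∑ i ∈ Finset.range N, ((g i).2 + 1)

def sd (L : ℕ) (p : Bool) (g : ℕ → Bool × ℕ) (N : ℕ) : ℕ :=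
  ∑ i ∈ Finset.range N, if i % 2 = p.toNat ∧ (g i).2 % 2 = 1 ∧ (g i).2 + 1 ≤ L then 1 else 0

def dfc (g : ℕ → Bool × ℕ) (N : ℕ) : ℕ :=
  ∑ i ∈ Finset.range N, if i % 2 = 0 ∧ (g i).2 % 2 = 1 then 1 else 0

theorem sd_succ (L : ℕ) (p : Bool) (g : ℕ → Bool × ℕ) (N : ℕ) : sd L p g (N + 1) =
    sd L (!p) (fun i => g (i + 1)) N +
      if p = false ∧ (g 0).2 % 2 = 1 ∧ (g 0).2 + 1 ≤ L then 1 else 0 := by
  unfold sd
  rw [Finset.sum_range_succ']
  congr 1
  · refine Finset.sum_congr rfl fun i _ => if_congr (and_congr_left fun _ => ?_) rfl rfl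
    cases p <;> simp <;> omega
  · refine if_congr (and_congr_left fun _ => ?_) rfl rfl
    cases p <;> simp

theorem V.cfg (S : Sys2 Γ) (L : ℕ) : ∀ (N : ℕ) (p : Bool) (g : ℕ → Bool × ℕ),
    V Γ p g (N + 1) → Cfg true L (sd L p g N) p (ex p (ls g (N + 1)))
  | 0, _, _, _ => Cfg.zero _ _
  | N + 1, p, g, h => by
    have ih := V.cfg S L N _ _ (h.tl S.toSys)
    have hb := h.bit S
    rw [sd_succ]
    split_ifs with c
    · obtain ⟨rfl, c1, c2⟩ := c
      obtain ⟨m, hm⟩ : ∃ m, (g 0).2 = 2 * m + 1 := ⟨(g 0).2 / 2, by omega⟩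
      have e : (g 1).1 = (g 0).1 := by
        revert hb
        cases (g 0).1 <;> cases (g 1).1 <;> simp <;> omega
      simp only [ls, ex, Bool.not_false, Bool.not_true, zero_add, hm, e] at ih ⊢
      exact Cfg.hit (x := true) _ m (by omega) (Cfg.inv0 (x := true) ih)
    · exact (ih.rep _).skip _ _

theorem le_mass (g : ℕ → Bool × ℕ) (N : ℕ) : N ≤ mass g N := by
  unfold mass
  simpa using Finset.card_nsmul_le_sum (Finset.range N) (fun i => (g i).2 + 1) 1
    (fun i _ => by omega)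

theorem mass_add (g : ℕ → Bool × ℕ) (N M : ℕ) : mass g (N + M) = mass g N + mass (sh g N) M :=
  Finset.sum_range_add _ _ _

theorem mass_mono (g : ℕ → Bool × ℕ) {N M : ℕ} (h : N ≤ M) : mass g N ≤ mass g M := by
  obtain ⟨M, rfl⟩ := Nat.exists_eq_add_of_le h
  rw [mass_add]
  omega

theorem dfc_le (S : Sys2 Γ) (L : ℕ) : ∃ K, ∀ g N, V Γ false g N → L * dfc g N ≤ mass g N + K := by
  obtain ⟨K, B⟩ := exists_bnd S.toSys L
  refine ⟨L * K + L, fun g N h => ?_⟩
  cases N with
  | zero => simp [dfc]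
  | succ N =>
    have h1 := B _ _ _ h (h.cfg S L)
    have h2 : L * dfc g N ≤ L * sd L false g N + mass g N := by
      unfold dfc sd mass
      rw [Finset.mul_sum, Finset.mul_sum, ← Finset.sum_add_distrib]
      refine Finset.sum_le_sum fun i _ => ?_
      simp only [Bool.toNat_false]
      split_ifs <;> omega
    have h3 : dfc g (N + 1) ≤ dfc g N + 1 := by
      unfold dfc
      rw [Finset.sum_range_succ]
      split_ifs <;> omega
    have h4 := mass_mono g (Nat.le_succ N)
    nlinarith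

/-- Runs of the child when the runs at even places are odd. -/
def rc (g : ℕ → Bool × ℕ) (i : ℕ) : Bool × ℕ :=
  if i % 2 = 0 then ((g (2 * i)).1, ((g (2 * i)).2 + (g (2 * i + 2)).2) / 2) else g (2 * i + 1)

theorem rc_sh (g : ℕ → Bool × ℕ) (j : ℕ) : rc (sh g (4 * j)) = sh (rc g) (2 * j) := by
  funext i
  simp only [rc, sh]
  rw [show (2 * j + i) % 2 = i % 2 by omega, show 2 * (2 * j + i) = 4 * j + 2 * i by ring,
    add_assoc, add_assoc]

theorem chd_four {e0 e1 e2 e3 : Bool} {a m1 b m3 : ℕ} (R : List (Bool × ℕ)) :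
    chd none (ex false ((e0, 2 * a) :: (e1, m1) :: (e2, 2 * b) :: (e3, m3) :: R)) =
      (e0, false) :: (replicate (a + b) (true, false) ++
        (e3, true) :: (replicate m3 (true, true) ++ chd none (ex false R))) := by
  cases a with
  | zero =>
    simp only [ex, Bool.not_false, Bool.not_true, mul_zero, replicate_zero, nil_append, chd,
      chd_b0, chd_aa, chd_b1, zero_add]
  | succ a =>
    rw [show 2 * (a + 1) = 1 + (2 * a + 1) by ring, show a + 1 + b = a + (1 + b) by ring]
    simp only [ex, Bool.not_false, Bool.not_true, replicate_add, replicate_one, append_assoc,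
      cons_append, nil_append, chd, chd_b0, chd_aa, chd_b1]

theorem chd_ex : ∀ (j : ℕ) (g : ℕ → Bool × ℕ), (∀ i < 4 * j, i % 2 = 0 → (g i).2 % 2 = 0) →
    chd none (ex false (ls g (4 * j))) = ex true (ls (rc g) (2 * j))
  | 0, _, _ => rfl
  | j + 1, g, h => by
    have ih := chd_ex j (sh g (4 * 1)) fun i hi h2 => h _ (by omega) (by omega)
    rw [rc_sh] at ih
    obtain ⟨a, ha⟩ : ∃ a, (g 0).2 = 2 * a := ⟨(g 0).2 / 2, by have := h 0 (by omega) rfl; omega⟩
    obtain ⟨b, hb⟩ : ∃ b, (g 2).2 = 2 * b := ⟨(g 2).2 / 2, by have := h 2 (by omega) rfl; omega⟩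
    have e1 : ls g (4 * (j + 1)) = ((g 0).1, 2 * a) :: ((g 1).1, (g 1).2) :: ((g 2).1, 2 * b) ::
        ((g 3).1, (g 3).2) :: ls (sh g (4 * 1)) (4 * j) := by
      rw [show 4 * (j + 1) = 4 * j + 1 + 1 + 1 + 1 by ring, ← ha, ← hb]
      simp only [ls]
      congr 5
      funext i
      simp only [sh]
      congr 1
      ring
    have e2 : ls (rc g) (2 * (j + 1)) = ((g 0).1, a + b) :: g 3 ::
        ls (sh (rc g) (2 * 1)) (2 * j) := by
      rw [show 2 * (j + 1) = 2 * j + 1 + 1 by ring]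
      simp only [ls]
      congr 1
      · simp only [rc, mul_zero, zero_add, if_true, ha, hb]
        congr 1
        omega
      · congr 2
        funext i
        simp only [sh]
        congr 1
        ring
    rw [e1, e2, chd_four, ih]
    simp only [ex, Bool.not_true, Bool.not_false]

theorem mass_rc (g : ℕ → Bool × ℕ) : ∀ j, mass (rc g) (2 * j) ≤ mass g (4 * j)
  | 0 => le_rfl
  | j + 1 => by
    have ih := mass_rc g j
    unfold mass at *
    rw [show 2 * (j + 1) = 2 * j + 1 + 1 by ring, show 4 * (j + 1) = 4 * j + 1 + 1 + 1 + 1 by ring]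
    simp only [Finset.sum_range_succ]
    have e1 : (rc g (2 * j)).2 = ((g (4 * j)).2 + (g (4 * j + 2)).2) / 2 := by
      simp only [rc, Nat.mul_mod_right, if_true]
      rw [show 2 * (2 * j) = 4 * j by ring]
    have e2 : rc g (2 * j + 1) = g (4 * j + 3) := by
      simp only [rc]
      rw [if_neg (by omega)]
      congr 1
      ring
    rw [e1, e2]
    omega

/-- Regular windows. -/
def Reg : ℕ → (ℕ → Bool × ℕ) → ℕ → Prop
  | 0, _, _ => True
  | d + 1, g, w => (∀ i < w, i % 2 = 0 → (g i).2 % 2 = 0) ∧ Reg d (sh (rc g) 1) (w / 2 - 1)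

open Classical in
noncomputable def ind (d w : ℕ) (g : ℕ → Bool × ℕ) (s : ℕ) : ℕ :=
  if s % 2 = 0 ∧ ¬ Reg d (sh g s) w then 1 else 0

noncomputable def bad (d w : ℕ) (g : ℕ → Bool × ℕ) (N : ℕ) : ℕ :=
  ∑ s ∈ Finset.range N, ind d w g s

theorem ind_le (d w : ℕ) (g : ℕ → Bool × ℕ) (s : ℕ) : ind d w g s ≤ 1 := by
  unfold ind
  split_ifs <;> omega

theorem ind_odd (d w : ℕ) (g : ℕ → Bool × ℕ) {s : ℕ} (h : s % 2 = 1) : ind d w g s = 0 :=
  if_neg fun c => by omega

theorem ind_mono {d w d' w' s s' : ℕ} {g g' : ℕ → Bool × ℕ} (h : s' % 2 = 0)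
    (r : Reg d' (sh g' s') w' → Reg d (sh g s) w) : ind d w g s ≤ ind d' w' g' s' := by
  unfold ind
  split_ifs with c1 c2
  exacts [le_rfl, absurd ⟨h, fun q => c1.2 (r q)⟩ c2, by omega, le_rfl]

theorem sh_sh {α : Type} (g : ℕ → α) (s t : ℕ) : sh (sh g s) t = sh g (s + t) :=
  funext fun i => by simp only [sh, add_assoc]

theorem bad_add (d w : ℕ) (g : ℕ → Bool × ℕ) (j M : ℕ) :
    bad d w g (2 * j + M) = bad d w g (2 * j) + bad d w (sh g (2 * j)) M := by
  unfold bad
  rw [Finset.sum_range_add]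
  congr 1
  refine Finset.sum_congr rfl fun i _ => ?_
  unfold ind
  rw [sh_sh, show (2 * j + i) % 2 = i % 2 by omega]

theorem bad_le (d w : ℕ) (g : ℕ → Bool × ℕ) (N : ℕ) :
    ∀ M, bad d w g (N + M) ≤ bad d w g N + M
  | 0 => le_rfl
  | M + 1 => by
    have h1 := bad_le d w g N M
    have h2 := ind_le d w g (N + M)
    unfold bad at *
    rw [← add_assoc, Finset.sum_range_succ]
    omega

theorem bad_mono (d w : ℕ) (g : ℕ → Bool × ℕ) {N M : ℕ} (h : N ≤ M) :
    bad d w g N ≤ bad d w g M :=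
  Finset.sum_le_sum_of_subset (Finset.range_mono h)

theorem bad_clean (d w : ℕ) (g : ℕ → Bool × ℕ) {N : ℕ}
    (hc : ∀ i < N, i % 2 = 0 → (g i).2 % 2 = 0) : ∀ J, 4 * J + w ≤ N →
    bad (d + 1) w g (4 * J) ≤ bad d (w / 2 - 1) (sh (rc g) 1) (2 * J) +
      bad d (w / 2 - 1) (sh (rc (sh g 2)) 1) (2 * J)
  | 0, _ => by simp [bad]
  | J + 1, h => by
    have ih := bad_clean d w g hc J (by omega)
    have a0 : ind (d + 1) w g (4 * J) ≤ ind d (w / 2 - 1) (sh (rc g) 1) (2 * J) :=
      ind_mono (by omega) fun r => ⟨fun i hi h2 => hc _ (by omega) (by omega), by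
        rwa [rc_sh, sh_sh, add_comm, ← sh_sh]⟩
    have a2 : ind (d + 1) w g (4 * J + 2) ≤ ind d (w / 2 - 1) (sh (rc (sh g 2)) 1) (2 * J) :=
      ind_mono (by omega) fun r => ⟨fun i hi h2 => hc _ (by omega) (by omega), by
        rwa [add_comm (4 * J), ← sh_sh, rc_sh, sh_sh, add_comm, ← sh_sh]⟩
    have a1 := ind_odd (d + 1) w g (s := 4 * J + 1) (by omega)
    have a3 := ind_odd (d + 1) w g (s := 4 * J + 3) (by omega)
    unfold bad at *
    rw [show 2 * (J + 1) = 2 * J + 1 + 1 by ring, show 4 * (J + 1) = 4 * J + 1 + 1 + 1 + 1 by ring]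
    simp only [Finset.sum_range_succ]
    omega

theorem V.kid (S : Sys Γ) {g : ℕ → Bool × ℕ} {J : ℕ} (h : V Γ false g (4 * (J + 1)))
    (hc : ∀ i < 4 * (J + 1), i % 2 = 0 → (g i).2 % 2 = 0) :
    V Γ false (sh (rc g) 1) (2 * J) ∧ mass (sh (rc g) 1) (2 * J) ≤ mass g (4 * (J + 1)) := by
  have h1 : V Γ true (rc g) (2 * J + 1 + 1) := by
    have := S.c1 _ h
    rwa [chd_ex _ _ hc] at this
  have h2 := (h1.tl S).mono S (Nat.le_succ _)
  have e : (fun i => rc g (i + 1)) = sh (rc g) 1 := funext fun i => by simp only [sh, add_comm]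
  rw [e] at h2
  refine ⟨h2, le_trans ?_ (mass_rc g (J + 1))⟩
  have h3 := mass_add (rc g) 1 (2 * J)
  have h4 := mass_mono (rc g) (show 1 + 2 * J ≤ 2 * (J + 1) by omega)
  omega

theorem bad_sub (S : Sys2 Γ) : ∀ d w L : ℕ, ∃ K, ∀ g N, V Γ false g N →
    L * bad d w g N ≤ mass g N + K
  | 0, w, L => ⟨0, fun g N _ => by simp [bad, ind, Reg]⟩
  | d + 1, w, L => by
    obtain ⟨K0, h0⟩ := bad_sub S d (w / 2 - 1) (4 * L)
    have clean : ∀ g N, V Γ false g N → (∀ i < N, i % 2 = 0 → (g i).2 % 2 = 0) →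
        2 * L * bad (d + 1) w g N ≤ mass g N + (K0 + 2 * L * (w + 10)) := by
      intro g N h hc
      by_cases hN : N ≤ w + 10
      · have h1 := bad_le (d + 1) w g 0 N
        have h2 : bad (d + 1) w g 0 = 0 := by simp [bad]
        rw [zero_add, h2] at h1
        have : 2 * L * bad (d + 1) w g N ≤ 2 * L * (w + 10) := Nat.mul_le_mul_left _ (by omega)
        omega
      · set J := (N - w - 6) / 4
        have h1 := bad_clean d w g hc J (by omega)
        have h2 := bad_le (d + 1) w g (4 * J) (w + 10)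
        have h3 := bad_mono (d + 1) w g (show N ≤ 4 * J + (w + 10) by omega)
        obtain ⟨a1, a2⟩ := V.kid S.toSys (J := J) (h.mono S.toSys (by omega))
          fun i hi => hc i (by omega)
        obtain ⟨b1, b2⟩ := V.kid S.toSys (J := J) (g := sh g 2)
          (V.shift S.toSys 1 g (h.mono S.toSys (by omega))) fun i hi h2 =>
            hc _ (by omega) (by omega)
        have c1 := h0 _ _ a1
        have c2 := h0 _ _ b1
        have d1 := mass_mono g (show 4 * (J + 1) ≤ N by omega)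
        have d2 := mass_mono g (show 2 + 4 * (J + 1) ≤ N by omega)
        have d3 := mass_add g 2 (4 * (J + 1))
        have : 4 * L * bad (d + 1) w g N ≤ 4 * L * (bad d (w / 2 - 1) (sh (rc g) 1) (2 * J) +
            bad d (w / 2 - 1) (sh (rc (sh g 2)) 1) (2 * J) + (w + 10)) :=
          Nat.mul_le_mul_left _ (by omega)
        nlinarith
    set K1 := K0 + 2 * L * (w + 10) + 4 * L with hK1
    have gen : ∀ N g, V Γ false g N →
        2 * L * bad (d + 1) w g N ≤ mass g N + K1 * (dfc g N + 1) := by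
      intro N
      induction N using Nat.strong_induction_on with
      | _ N ih =>
        intro g h
        by_cases hc : ∃ i, i < N ∧ i % 2 = 0 ∧ (g i).2 % 2 = 1
        · classical
          obtain ⟨e1, e2, e3⟩ := Nat.find_spec hc
          have e4 := fun i => Nat.find_min hc (m := i)
          generalize Nat.find hc = e at e1 e2 e3 e4
          obtain ⟨j, rfl⟩ : ∃ j, e = 2 * j := ⟨e / 2, by omega⟩
          have a1 := clean g (2 * j) (h.mono S.toSys e1.le) fun i hi h2 => by
            have := e4 i hi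
            omega
          have a2 := bad_le (d + 1) w g (2 * j) 2
          by_cases hN : N ≤ 2 * j + 2
          · have a3 := bad_mono (d + 1) w g hN
            have a4 := mass_mono g e1.le
            have : 2 * L * bad (d + 1) w g N ≤ 2 * L * (bad (d + 1) w g (2 * j) + 2) :=
              Nat.mul_le_mul_left _ (by omega)
            nlinarith [Nat.zero_le (K1 * dfc g N)]
          · obtain ⟨M, rfl⟩ : ∃ M, N = 2 * (j + 1) + M := ⟨N - 2 * (j + 1), by omega⟩
            have a3 := ih M (by omega) _ (V.shift S.toSys (j + 1) g h)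
            have a4 := bad_add (d + 1) w g (j + 1) M
            have a5 := mass_add g (2 * (j + 1)) M
            have a6 := mass_mono g (show 2 * j ≤ 2 * (j + 1) by omega)
            have a7 : dfc (sh g (2 * (j + 1))) M + 1 ≤ dfc g (2 * (j + 1) + M) := by
              unfold dfc
              rw [Finset.sum_range_add, add_comm]
              refine Nat.add_le_add ?_ (le_of_eq (Finset.sum_congr rfl fun i _ => ?_))
              · refine le_trans ?_ (Finset.single_le_sum (fun _ _ => Nat.zero_le _)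
                  (Finset.mem_range.2 (show 2 * j < 2 * (j + 1) by omega)))
                rw [if_pos ⟨e2, e3⟩]
              · rw [show (2 * (j + 1) + i) % 2 = i % 2 by omega]
                rfl
            have a8 : K1 * (dfc (sh g (2 * (j + 1))) M + 1) ≤ K1 * dfc g (2 * (j + 1) + M) :=
              Nat.mul_le_mul_left _ a7
            have : 2 * L * bad (d + 1) w g (2 * (j + 1) + M) ≤ 2 * L * (bad (d + 1) w g (2 * j) + 2 +
                bad (d + 1) w (sh g (2 * (j + 1))) M) :=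
              Nat.mul_le_mul_left _ (by rw [a4, show 2 * (j + 1) = 2 * j + 2 by ring]; omega)
            nlinarith
        · have a1 := clean g N h fun i hi h2 => by
            by_contra h3
            exact hc ⟨i, hi, h2, by omega⟩
          nlinarith [Nat.zero_le (K1 * dfc g N)]
    obtain ⟨K2, h2⟩ := dfc_le S K1
    refine ⟨K1 + K2, fun g N h => ?_⟩
    have a1 := gen N g h
    have a2 := h2 g N h
    nlinarith

def wl : ℕ → Bool → ℕ
  | 0, true => 3
  | 0, false => 4
  | d + 1, true => 2 * wl d false + 3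
  | d + 1, false => 2 * wl d true + 2

def ph : ℕ → Bool → ℕ
  | 0, _ => 0
  | d + 1, true => ph d false + 1
  | d + 1, false => ph d true

theorem wl_mod : ∀ d, wl d true % 4 = 3 ∧ wl d false % 4 = 0 ∧ 4 ≤ wl d false
  | 0 => by simp [wl]
  | d + 1 => by
    have := wl_mod d
    simp only [wl]
    omega

theorem ph_two : ∀ (l : ℕ) (x : Bool), ph (2 * l) x = l
  | 0, _ => rfl
  | l + 1, x => by
    rw [show 2 * (l + 1) = 2 * l + 1 + 1 by ring]
    cases x <;> simp only [ph, ph_two l]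

theorem det : ∀ (d : ℕ) (x : Bool) (g g' : ℕ → Bool × ℕ),
    (∀ i, i + 1 < wl d x → (g i).2 = (g' i).2) → Reg d g (wl d x) → Reg d g' (wl d x) →
    (g (wl d x - 1)).2 ≡ (g' (wl d x - 1)).2 [MOD 2 ^ ph d x]
  | 0, _, _, _, _, _, _ => Nat.modEq_one
  | d + 1, true, g, g', h, r, r' => by
    obtain ⟨-, w1, w2⟩ := wl_mod d
    simp only [wl, Reg] at h r r' ⊢
    rw [show (2 * wl d false + 3) / 2 - 1 = wl d false by omega] at r r'
    have ih := det d false _ _ (fun i hi => by
      simp only [sh, rc]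
      split_ifs
      · simp only
        rw [h _ (by omega), h _ (by omega)]
      · exact h _ (by omega)) r.2 r'.2
    simp only [sh, rc] at ih
    rw [show 1 + (wl d false - 1) = wl d false by omega, if_pos (by omega), if_pos (by omega),
      ← h _ (by omega)] at ih
    rw [show 2 * wl d false + 3 - 1 = 2 * wl d false + 2 by omega]
    have a0 := r.1 (2 * wl d false) (by omega) (by omega)
    have a1 := r.1 (2 * wl d false + 2) (by omega) (by omega)
    have a2 := r'.1 (2 * wl d false + 2) (by omega) (by omega)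
    have h2 := ih.mul_left' (c := 2)
    simp only at h2
    rw [Nat.mul_div_cancel' (by omega), Nat.mul_div_cancel' (by omega)] at h2
    rw [ph, pow_succ']
    exact Nat.ModEq.add_left_cancel' _ h2
  | d + 1, false, g, g', h, r, r' => by
    obtain ⟨w1, -, -⟩ := wl_mod d
    simp only [wl, Reg] at h r r' ⊢
    rw [show (2 * wl d true + 2) / 2 - 1 = wl d true by omega] at r r'
    have ih := det d true _ _ (fun i hi => by
      simp only [sh, rc]
      split_ifs
      · simp only
        rw [h _ (by omega), h _ (by omega)]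
      · exact h _ (by omega)) r.2 r'.2
    simp only [sh, rc] at ih
    rw [show 1 + (wl d true - 1) = wl d true by omega, if_neg (by omega), if_neg (by omega)] at ih
    rw [show 2 * wl d true + 2 - 1 = 2 * wl d true + 1 by omega]
    exact ih

end Pool.Agent.MP_61ef33_al.R
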