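import Pool.Agent.MP_61ef33_al.R.CoreB

/- Counting run sequences. -/

namespace Pool.Agent.MP_61ef33_al.R

open List

def AF : ℕ → ℕ → Finset (List ℕ)
  | 0, _ => {[]}
  | N + 1, s => (Finset.range (s + 1)).biUnion fun k => (AF N (s - k)).image (k :: ·)

theorem mem_AF : ∀ (l : List ℕ) (s : ℕ), l.sum ≤ s → l ∈ AF l.length s
  | [], _, _ => by simp [AF]
  | k :: l, s, h => by
    rw [sum_cons] at h
    simp only [length_cons, AF, Finset.mem_biUnion, Finset.mem_range, Finset.mem_image]
    exact ⟨k, by omega, l, mem_AF l _ (by omega), rfl⟩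

theorem card_AF {z : ℝ} (h0 : 0 < z) (h1 : z < 1) : ∀ N s : ℕ,
    ((AF N s).card : ℝ) ≤ (1 / z) ^ s * (1 - z)⁻¹ ^ N
  | 0, s => by
    simp only [AF, Finset.card_singleton, Nat.cast_one, pow_zero, mul_one]
    exact one_le_pow₀ (one_le_one_div h0 h1.le)
  | N + 1, s => by
    have a1 : ((AF (N + 1) s).card : ℝ) ≤ ∑ k ∈ Finset.range (s + 1), ((AF N (s - k)).card : ℝ) := by
      exact_mod_cast Finset.card_biUnion_le.trans
        (Finset.sum_le_sum fun k _ => Finset.card_image_le)
    have hz : 0 < 1 - z := by linarith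
    have a2 : ∑ k ∈ Finset.range (s + 1), ((AF N (s - k)).card : ℝ) ≤
        ∑ k ∈ Finset.range (s + 1), (1 / z) ^ s * (1 - z)⁻¹ ^ N * z ^ k := by
      refine Finset.sum_le_sum fun k hk => (card_AF h0 h1 N _).trans (le_of_eq ?_)
      obtain ⟨m, rfl⟩ := Nat.exists_eq_add_of_le (Nat.lt_succ_iff.1 (Finset.mem_range.1 hk))
      have e : (1 / z) ^ k * z ^ k = 1 := by rw [← mul_pow, one_div_mul_cancel h0.ne', one_pow]
      rw [Nat.add_sub_cancel_left, pow_add]
      linear_combination (-(1 / z) ^ m * (1 - z)⁻¹ ^ N) * e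
    have a3 : ∑ k ∈ Finset.range (s + 1), z ^ k ≤ (1 - z)⁻¹ := by
      rw [← tsum_geometric_of_lt_one h0.le h1]
      exact (summable_geometric_of_lt_one h0.le h1).sum_le_tsum _ fun _ _ => by positivity
    rw [← Finset.mul_sum] at a2
    refine a1.trans (a2.trans ?_)
    rw [pow_succ, ← mul_assoc]
    gcongr

def gR (R : List (Bool × ℕ)) : ℕ → Bool × ℕ := fun i => R.getD i (false, 0)

theorem ls_gR : ∀ R : List (Bool × ℕ), ls (gR R) R.length = R
  | [] => rfl
  | r :: R => by
    rw [length_cons, ls]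
    congr 1
    exact ls_gR R

theorem ls_congr {α : Type} : ∀ (N : ℕ) {g g' : ℕ → α}, (∀ i < N, g i = g' i) → ls g N = ls g' N
  | 0, _, _, _ => rfl
  | N + 1, _, _, h => by
    rw [ls, ls, h 0 (by omega), ls_congr N fun i hi => h (i + 1) (by omega)]

theorem ls_inj {α : Type} : ∀ (N : ℕ) {g g' : ℕ → α}, ls g N = ls g' N → ∀ i < N, g i = g' i
  | 0, _, _, _, _, h => absurd h (Nat.not_lt_zero _)
  | _ + 1, _, _, e, 0, _ => (cons.inj e).1
  | N + 1, _, _, e, i + 1, h => ls_inj N (cons.inj e).2 i (by omega)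

theorem ls_length {α : Type} : ∀ (N : ℕ) (g : ℕ → α), (ls g N).length = N
  | 0, _ => rfl
  | N + 1, _ => by rw [ls, length_cons, ls_length N]

theorem ls_sum : ∀ (N : ℕ) (g : ℕ → ℕ), (ls g N).sum = ∑ i ∈ Finset.range N, g i
  | 0, _ => rfl
  | N + 1, g => by rw [ls, sum_cons, ls_sum N, Finset.sum_range_succ', add_comm]

def mR (R : List (Bool × ℕ)) : ℕ := mass (gR R) R.length

theorem mR_cons (r : Bool × ℕ) (R : List (Bool × ℕ)) : mR (r :: R) = r.2 + 1 + mR R := by
  unfold mR mass
  rw [length_cons, Finset.sum_range_succ', add_comm]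
  rfl

theorem ex_length : ∀ (R : List (Bool × ℕ)) (p : Bool), (ex p R).length = mR R
  | [], _ => rfl
  | r :: R, p => by
    rw [mR_cons, ex, length_cons, length_append, length_replicate, ex_length R]
    ring

/-- The place `i` ends a regular window. -/
def good (d : ℕ) (g : ℕ → Bool × ℕ) (i : ℕ) : Prop :=
  wl d (decide (i % 2 = 0)) ≤ i + 1 ∧
    Reg d (sh g (i + 1 - wl d (decide (i % 2 = 0)))) (wl d (decide (i % 2 = 0)))

open Classical in
noncomputable def res (l : ℕ) (g : ℕ → Bool × ℕ) (i : ℕ) : ℕ :=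
  if good (2 * l) g i then 0 else (g i).2 % 2 ^ l + 1

theorem sum_shift (F : ℕ → ℕ) (w : ℕ) (hw : 1 ≤ w) (N : ℕ) :
    ∑ i ∈ Finset.range N, (if w ≤ i + 1 then F (i + 1 - w) else 0) ≤ ∑ s ∈ Finset.range N, F s := by
  have h : ∀ N, ∑ i ∈ Finset.range N, (if w ≤ i + 1 then F (i + 1 - w) else 0) ≤
      ∑ s ∈ Finset.range (N + 1 - w), F s := by
    intro N
    induction N with
    | zero => simp
    | succ N ih =>
      rw [Finset.sum_range_succ]
      split_ifs with c
      · rw [show N + 1 + 1 - w = N + 1 - w + 1 by omega, Finset.sum_range_succ]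
        omega
      · exact (by simpa using ih : _ ≤ _).trans
          (Finset.sum_le_sum_of_subset (Finset.range_mono (by omega)))
  exact (h N).trans (Finset.sum_le_sum_of_subset (Finset.range_mono (by omega)))

theorem sum_lt_le (W : ℕ) : ∀ N, ∑ i ∈ Finset.range N, (if i < W then 1 else 0) ≤ W := by
  have h : ∀ N, ∑ i ∈ Finset.range N, (if i < W then 1 else 0) ≤ min N W := by
    intro N
    induction N with
    | zero => simp
    | succ N ih =>
      rw [Finset.sum_range_succ]
      split_ifs <;> omega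
  exact fun N => (h N).trans (min_le_right _ _)

theorem res_sum (l : ℕ) (g : ℕ → Bool × ℕ) (N : ℕ) : ∑ i ∈ Finset.range N, res l g i ≤
    2 ^ l * (bad (2 * l) (wl (2 * l) true) g N + bad (2 * l) (wl (2 * l) false) g N +
      (wl (2 * l) true + wl (2 * l) false)) := by
  obtain ⟨w1, w2, w3⟩ := wl_mod (2 * l)
  have a1 := sum_shift (ind (2 * l) (wl (2 * l) true) g) (wl (2 * l) true) (by omega) N
  have a2 := sum_shift (ind (2 * l) (wl (2 * l) false) g) (wl (2 * l) false) (by omega) N
  have a3 := sum_lt_le (wl (2 * l) true + wl (2 * l) false) N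
  refine le_trans ?_ (Nat.mul_le_mul_left _ (Nat.add_le_add (Nat.add_le_add a1 a2) a3))
  rw [← Finset.sum_add_distrib, ← Finset.sum_add_distrib, Finset.mul_sum]
  refine Finset.sum_le_sum fun i _ => ?_
  unfold res
  by_cases c : good (2 * l) g i
  · rw [if_pos c]
    exact Nat.zero_le _
  · rw [if_neg c]
    refine (Nat.mod_lt _ (by positivity)).trans_le (Nat.le_mul_of_pos_right _ ?_)
    by_cases c1 : i < wl (2 * l) true + wl (2 * l) false
    · rw [if_pos c1]
      omega
    · by_cases c2 : i % 2 = 0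
      · simp only [good, c2, decide_true] at c
        have e : ind (2 * l) (wl (2 * l) true) g (i + 1 - wl (2 * l) true) = 1 :=
          if_pos ⟨by omega, fun r => c ⟨by omega, r⟩⟩
        rw [if_pos (show wl (2 * l) true ≤ i + 1 by omega), e]
        omega
      · simp only [good, c2, decide_false] at c
        have e : ind (2 * l) (wl (2 * l) false) g (i + 1 - wl (2 * l) false) = 1 :=
          if_pos ⟨by omega, fun r => c ⟨by omega, r⟩⟩
        rw [if_pos (show wl (2 * l) false ≤ i + 1 by omega), e]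
        omega

noncomputable def code (l : ℕ) (R : List (Bool × ℕ)) : List ℕ :=
  (gR R 0).1.toNat :: (ls (fun i => (gR R i).2 / 2 ^ l) R.length ++ ls (res l (gR R)) R.length)

theorem code_length (l : ℕ) (R : List (Bool × ℕ)) : (code l R).length = 2 * R.length + 1 := by
  rw [code, length_cons, length_append, ls_length, ls_length]
  ring

variable {Γ : Bool → Tk → Prop}

theorem code_inj (S : Sys2 Γ) (l : ℕ) {R R' : List (Bool × ℕ)} (h : Γ false (ex false R))
    (h' : Γ false (ex false R')) (e : code l R = code l R') : R = R' := by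
  have hN : R.length = R'.length := by
    have := congrArg length e
    rw [code_length, code_length] at this
    omega
  have v : V Γ false (gR R) R.length := by rwa [V, ls_gR]
  have v' : V Γ false (gR R') R.length := by rwa [V, hN, ls_gR]
  rw [code, code, ← hN] at e
  obtain ⟨e0, e1⟩ := cons.inj e
  obtain ⟨e1, e2⟩ := append_inj e1 (by rw [ls_length, ls_length])
  have q := ls_inj _ e1
  have r := ls_inj _ e2
  have hm : ∀ i < R.length, (gR R i).2 = (gR R' i).2 := by
    intro i
    induction i using Nat.strong_induction_on with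
    | _ i ih =>
      intro hi
      have q1 := q i hi
      have r1 := r i hi
      have key : (gR R i).2 % 2 ^ l = (gR R' i).2 % 2 ^ l := by
        unfold res at r1
        split_ifs at r1 with c c'
        · have := det (2 * l) _ _ _ (fun j hj => ih _ (by have := c.1; omega)
            (by have := c.1; omega)) c.2 c'.2
          rw [ph_two] at this
          have w : 1 ≤ wl (2 * l) (decide (i % 2 = 0)) := by
            have := wl_mod (2 * l)
            cases decide (i % 2 = 0) <;> omega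
          rwa [show i + 1 - wl (2 * l) (decide (i % 2 = 0)) +
            (wl (2 * l) (decide (i % 2 = 0)) - 1) = i by have := c.1; omega] at this
        · omega
      rw [← Nat.div_add_mod (gR R i).2 (2 ^ l), ← Nat.div_add_mod (gR R' i).2 (2 ^ l), key, q1]
  have hb : ∀ i < R.length, (gR R i).1 = (gR R' i).1 := by
    intro i
    induction i with
    | zero =>
      intro _
      revert e0
      cases (gR R 0).1 <;> cases (gR R' 0).1 <;> simp
    | succ i ih =>
      intro hi
      have a := v.bits S i hi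
      have a' := v'.bits S i hi
      rw [← ih (by omega), ← hm i (by omega)] at a'
      revert a a'
      cases (gR R (i + 1)).1 <;> cases (gR R' (i + 1)).1 <;> simp <;> omega
  rw [← ls_gR R, ← ls_gR R', ← hN]
  exact ls_congr _ fun i hi => Prod.ext (hb i hi) (hm i hi)

theorem code_sum (S : Sys2 Γ) (l : ℕ) : ∃ K, ∀ R, Γ false (ex false R) →
    2 ^ l * (code l R).sum ≤ 3 * mR R + K := by
  obtain ⟨K1, h1⟩ := bad_sub S (2 * l) (wl (2 * l) true) (2 ^ l * 2 ^ l)
  obtain ⟨K2, h2⟩ := bad_sub S (2 * l) (wl (2 * l) false) (2 ^ l * 2 ^ l)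
  refine ⟨K1 + K2 + 2 ^ l + 2 ^ l * 2 ^ l * (wl (2 * l) true + wl (2 * l) false), fun R h => ?_⟩
  have v : V Γ false (gR R) R.length := by rwa [V, ls_gR]
  have a1 := h1 _ _ v
  have a2 := h2 _ _ v
  have a3 := Nat.mul_le_mul_left (2 ^ l) (res_sum l (gR R) R.length)
  have a4 : 2 ^ l * ∑ i ∈ Finset.range R.length, (gR R i).2 / 2 ^ l ≤ mass (gR R) R.length := by
    rw [Finset.mul_sum]
    exact Finset.sum_le_sum fun i _ => (Nat.mul_div_le _ _).trans (Nat.le_succ _)
  have a5 : 2 ^ l * (gR R 0).1.toNat ≤ 2 ^ l := by cases (gR R 0).1 <;> simp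
  rw [code, sum_cons, sum_append, ls_sum, ls_sum, mR]
  nlinarith

theorem rate_runs (S : Sys2 Γ) : Rate {R | Γ false (ex false R)} mR 0 := by
  intro δ hδ
  obtain ⟨l, hl⟩ := pow_unbounded_of_one_lt (54 / δ ^ 2) (one_lt_two (α := ℝ))
  obtain ⟨K, hK⟩ := code_sum S l
  set ε := δ / 6 with hε
  have ε0 : 0 < ε := by positivity
  have z0 : 0 < ε / (1 + ε) := by positivity
  have z1 : ε / (1 + ε) < 1 := by rw [div_lt_one (by positivity)]; linarith
  have e1 : (1 - ε / (1 + ε))⁻¹ = 1 + ε := by field_simp; ring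
  have e2 : 1 / (ε / (1 + ε)) ≤ Real.exp (1 / ε) := by
    have := Real.add_one_le_exp (1 / ε)
    calc 1 / (ε / (1 + ε)) = 1 / ε + 1 := by field_simp
      _ ≤ _ := this
  have e3 : 1 + ε ≤ Real.exp ε := by linarith [Real.add_one_le_exp ε]
  refine ⟨(1 + 1 / (δ / 3)) * Real.exp (K / ε + ε), fun n => ?_⟩
  set s := (3 * n + K) / 2 ^ l
  have hs : (s : ℝ) * (1 / ε) ≤ δ / 3 * n + K / ε := by
    have b1 : ((2 : ℝ) ^ l) * s ≤ 3 * n + K := by exact_mod_cast Nat.mul_div_le _ _
    have b2 : (1 : ℝ) ≤ 2 ^ l := one_le_pow₀ one_le_two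
    have b3 : 54 < 2 ^ l * δ ^ 2 := by rwa [div_lt_iff₀ (by positivity)] at hl
    have b4 : (s : ℝ) ≤ 3 * n / 2 ^ l + K := by
      rw [div_add' _ _ _ (by positivity), le_div_iff₀ (by positivity)]
      nlinarith [Nat.cast_nonneg (α := ℝ) K]
    have b5 : (3 : ℝ) * n / 2 ^ l ≤ δ ^ 2 / 18 * n := by
      rw [div_le_iff₀ (by positivity)]
      nlinarith [Nat.cast_nonneg (α := ℝ) n]
    calc (s : ℝ) * (1 / ε) ≤ (δ ^ 2 / 18 * n + K) * (1 / ε) := by gcongr; linarith
      _ = _ := by rw [hε]; field_simp; ring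
  have hU := ncard_biUnion_le' n (fun N => (AF (2 * N + 1) s : Set (List ℕ)))
    (Real.exp (K / ε + ε) * Real.exp (2 * δ / 3 * n)) fun N hN => ⟨Finset.finite_toSet _, by
      rw [Set.ncard_coe_finset]
      refine (card_AF z0 z1 _ _).trans ?_
      rw [e1]
      have hN' : (N : ℝ) ≤ n := by exact_mod_cast hN
      calc (1 / (ε / (1 + ε))) ^ s * (1 + ε) ^ (2 * N + 1)
          ≤ Real.exp (1 / ε) ^ s * Real.exp ε ^ (2 * N + 1) := by gcongr
        _ = Real.exp (s * (1 / ε) + (2 * N + 1 : ℕ) * ε) := by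
          rw [← Real.exp_nat_mul, ← Real.exp_nat_mul, ← Real.exp_add]
        _ ≤ _ := by
          rw [← Real.exp_add]
          refine Real.exp_le_exp.2 ?_
          push_cast
          nlinarith⟩
  have hm : Set.MapsTo (code l) (cnt {R | Γ false (ex false R)} mR n)
      (⋃ N ∈ Finset.range (n + 1), (AF (2 * N + 1) s : Set (List ℕ))) := by
    rintro R ⟨h1, h2⟩
    have a1 := le_mass (gR R) R.length
    have a2 := hK R h1
    simp only [Set.mem_iUnion, Finset.mem_coe]
    refine ⟨R.length, Finset.mem_range.2 (by unfold mR at h2; omega), ?_⟩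
    rw [← code_length l]
    refine mem_AF _ _ ((Nat.le_div_iff_mul_le (by positivity)).2 ?_)
    rw [mul_comm]
    omega
  have hi : Set.InjOn (code l) (cnt {R | Γ false (ex false R)} mR n) :=
    fun R h R' h' e => code_inj S l h.1 h'.1 e
  refine ⟨Set.Finite.of_injOn hm hi hU.1, ?_⟩
  have b1 : ((cnt {R | Γ false (ex false R)} mR n).ncard : ℝ) ≤ _ :=
    le_trans (by exact_mod_cast Set.ncard_le_ncard_of_injOn _ hm hi hU.1) hU.2
  refine b1.trans ?_
  calc ((n : ℝ) + 1) * (Real.exp (K / ε + ε) * Real.exp (2 * δ / 3 * n))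
      ≤ (1 + 1 / (δ / 3)) * Real.exp (δ / 3 * n) *
        (Real.exp (K / ε + ε) * Real.exp (2 * δ / 3 * n)) := by
        gcongr
        exact succ_le_exp (by positivity) n
    _ = _ := by
      rw [show (0 + δ) * n = δ / 3 * n + 2 * δ / 3 * n by ring, Real.exp_add (δ / 3 * n)]
      ring

end Pool.Agent.MP_61ef33_al.R
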